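import Pool.Agent.Y738.PE.Glob2

/-! # Equivalence of translation invariant and arbitrary efficient local approximation -/

open scoped BigOperators ComplexConjugate Classical

noncomputable section

namespace Pool.Agent.Y738.PE

/-- The marginals on `R` converge at a polynomial rate. -/
def PolyConv {d : ℕ} (R : Finset (ℤ × ℤ)) (Ψ : ∀ L : ℕ, Conf d L → ℂ) : Prop :=
  ∃ c k : ℕ, ∀ ε : ℝ, 0 < ε → ε ≤ 1 → ∀ (L L' : ℕ) [NeZero L] [NeZero L'],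
    (c : ℝ) * (1 / ε) ^ k ≤ L → (c : ℝ) * (1 / ε) ^ k ≤ L' → Close R (Ψ L) (Ψ L') ε

/-- Efficient local approximation by arbitrary PEPS, each for one size. -/
def EffAny {d : ℕ} (R : Finset (ℤ × ℤ)) (r : ℕ) (Ψ : ∀ L : ℕ, Conf d L → ℂ) : Prop :=
  ∃ c k : ℕ, ∀ ε : ℝ, 0 < ε → ε ≤ 1 → ∃ (m : ℕ) (_ : NeZero m) (f : ℕ) (C : Site m → Tensor d f),
    (r : ℝ) / ε ≤ m ∧ (m : ℝ) ≤ c * (1 / ε) ^ k ∧ (f : ℝ) ≤ c * (1 / ε) ^ k ∧
    nrm (pepsN C) ≠ 0 ∧ Close R (Ψ m) (pepsN C) ε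

/-- Efficient local approximation by translation invariant PEPS, one tensor for all sizes. -/
def EffAll {d : ℕ} (R : Finset (ℤ × ℤ)) (Ψ : ∀ L : ℕ, Conf d L → ℂ) : Prop :=
  ∃ c k : ℕ, ∀ ε : ℝ, 0 < ε → ε ≤ 1 → ∃ (D : ℕ) (A : Tensor d D),
    (D : ℝ) ≤ c * (1 / ε) ^ k ∧
    ∀ (L : ℕ) [NeZero L], (c : ℝ) * (1 / ε) ^ k ≤ L →
      nrm (pepsX A L) ≠ 0 ∧ Close R (Ψ L) (pepsX A L) ε

theorem close_trans {d L L' L'' : ℕ} [NeZero L] [NeZero L'] [NeZero L''] {R : Finset (ℤ × ℤ)}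
    {Ψ : Conf d L → ℂ} {Ψ' : Conf d L' → ℂ} {Ψ'' : Conf d L'' → ℂ} {ε ε' : ℝ}
    (h : Close R Ψ Ψ' ε) (h' : Close R Ψ' Ψ'' ε') : Close R Ψ Ψ'' (ε + ε') := by
  intro u v B hB
  have h1 := h u 0 B hB
  have h2 := h' 0 v B hB
  exact (norm_sub_le_norm_sub_add_norm_sub _ _ _).trans (add_le_add h1 h2)

theorem pow_scale {x c : ℝ} (hx : 1 ≤ x) {a b : ℕ} (hab : a ≤ b) (hc : 0 ≤ c) :
    c * x ^ a ≤ c * x ^ b :=
  mul_le_mul_of_nonneg_left (pow_le_pow_right₀ hx hab) hc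

theorem all_to_any {d : ℕ} (R : Finset (ℤ × ℤ)) (r : ℕ) (Ψ : ∀ L : ℕ, Conf d L → ℂ)
    (h : EffAll R Ψ) : EffAny R r Ψ := by
  obtain ⟨c, k, h⟩ := h
  refine ⟨c + r + 3, k + 1, ?_⟩
  intro ε hε hε1
  obtain ⟨D, A, hD, hA⟩ := h ε hε hε1
  set x : ℝ := 1 / ε with hx
  have hx1 : 1 ≤ x := by rw [hx, le_div_iff₀ hε]; linarith
  have hxk : 1 ≤ x ^ k := one_le_pow₀ hx1
  have hxk1 : x ^ k ≤ x ^ (k + 1) := pow_le_pow_right₀ hx1 (Nat.le_succ k)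
  have hxk2 : x ≤ x ^ (k + 1) := by
    calc x = x ^ 1 := (pow_one x).symm
      _ ≤ x ^ (k + 1) := pow_le_pow_right₀ hx1 (by omega)
  have hc0 : (0 : ℝ) ≤ c := Nat.cast_nonneg c
  have hr0 : (0 : ℝ) ≤ r := Nat.cast_nonneg r
  set m : ℕ := ⌈(c : ℝ) * x ^ k⌉₊ + ⌈(r : ℝ) / ε⌉₊ + 1 with hm
  have hi : NeZero m := ⟨by omega⟩
  have hm1 : (c : ℝ) * x ^ k ≤ m := by
    have := Nat.le_ceil ((c : ℝ) * x ^ k)
    rw [hm]; push_cast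
    have h2 : (0 : ℝ) ≤ (⌈(r : ℝ) / ε⌉₊ : ℕ) := Nat.cast_nonneg _
    linarith
  have hm2 : (r : ℝ) / ε ≤ m := by
    have := Nat.le_ceil ((r : ℝ) / ε)
    rw [hm]; push_cast
    have h2 : (0 : ℝ) ≤ (⌈(c : ℝ) * x ^ k⌉₊ : ℕ) := Nat.cast_nonneg _
    linarith
  obtain ⟨h1, h2⟩ := hA m hm1
  refine ⟨m, hi, D, fun _ => A, hm2, ?_, ?_, h1, h2⟩
  · have e1 := (Nat.ceil_lt_add_one (a := (c : ℝ) * x ^ k) (by positivity)).le
    have e2 := (Nat.ceil_lt_add_one (a := (r : ℝ) / ε) (by positivity)).le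
    have e3 : (r : ℝ) / ε = r * x := by rw [hx]; ring
    have e4 : (m : ℝ) ≤ (c : ℝ) * x ^ k + r * x + 3 := by
      rw [hm]; push_cast
      rw [← e3]
      linarith
    have e5 : (c : ℝ) * x ^ k ≤ c * x ^ (k + 1) := mul_le_mul_of_nonneg_left hxk1 hc0
    have e6 : (r : ℝ) * x ≤ r * x ^ (k + 1) := mul_le_mul_of_nonneg_left hxk2 hr0
    push_cast
    nlinarith
  · refine hD.trans ?_
    have e5 : (c : ℝ) * x ^ k ≤ c * x ^ (k + 1) := mul_le_mul_of_nonneg_left hxk1 hc0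
    have e7 : (0 : ℝ) ≤ x ^ (k + 1) := by linarith
    push_cast
    nlinarith

theorem f_pos {d m f : ℕ} [NeZero m] (C : Site m → Tensor d f) (hC : nrm (pepsN C) ≠ 0) :
    0 < f := by
  rcases Nat.eq_zero_or_pos f with h | h
  · exfalso
    subst h
    apply hC
    unfold nrm
    refine Finset.sum_eq_zero fun s _ => ?_
    have : pepsN C s = 0 := by
      unfold pepsN
      refine Finset.sum_eq_zero fun hor _ => ?_
      exact (hor 0).elim0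
    rw [this]; simp
  · exact h

theorem both (d : ℕ) (hd : 2 ≤ d) (R : Finset (ℤ × ℤ)) :
    ∃ r : ℕ, 0 < r ∧
      (∀ ε : ℝ, 0 < ε → ε ≤ 1 → ∀ (m : ℕ) [NeZero m], 16 * (r : ℝ) / ε ≤ m →
        ∀ (f : ℕ) (C : Site m → Tensor d f), nrm (pepsN C) ≠ 0 →
        ∃ A : Tensor d (bondG m f ε), ∀ (L : ℕ) [NeZero L], r + (m * ⌈24 / ε⌉₊ + 3) ^ 2 ≤ L →
          nrm (pepsX A L) ≠ 0 ∧
          ∀ (L' : ℕ) [NeZero L'] (Ψ : Conf d L' → ℂ) (η : ℝ), r ≤ L' →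
            Close R Ψ (pepsN C) η → Close R Ψ (pepsX A L) (ε + η)) ∧
      (∀ Ψ : ∀ L : ℕ, Conf d L → ℂ, PolyConv R Ψ → (EffAny R (16 * r) Ψ ↔ EffAll R Ψ)) := by
  obtain ⟨r₀, hr₀, hmain⟩ := glob_region d hd R
  refine ⟨r₀, hr₀, hmain, fun Ψ hconv => ⟨?_, all_to_any R _ Ψ⟩⟩
  obtain ⟨c₁, k₁, hconv⟩ := hconv
  rintro ⟨c₂, k₂, h⟩
  set c' : ℕ := c₂ * (c₁ + 1) ^ k₂ with hc'
  set k' : ℕ := (k₁ + 1) * k₂ with hk'
  obtain ⟨N₁, hN₁⟩ : ∃ N₁ : ℕ, N₁ = (102 * ((c' + 1) * 2 ^ k')) ^ 2 * ((c' + 1) * 2 ^ k') ^ 4 :=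
    ⟨_, rfl⟩
  refine ⟨N₁ * 2 ^ (6 * k' + 2), 6 * k' + 2, ?_⟩
  intro ε hε hε1
  set x : ℝ := 1 / ε with hx
  have hx1 : 1 ≤ x := by rw [hx, le_div_iff₀ hε]; linarith
  set y : ℝ := ((c₁ : ℝ) + 1) * (1 / (ε / 4)) ^ (k₁ + 1) with hy
  have hq1 : 1 ≤ 1 / (ε / 4) := by
    rw [le_div_iff₀ (by linarith)]; linarith
  have hqk : 1 ≤ (1 / (ε / 4)) ^ k₁ := one_le_pow₀ hq1
  have hc10 : (0 : ℝ) ≤ c₁ := Nat.cast_nonneg c₁
  have hyq : 1 / (ε / 4) ≤ y := by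
    rw [hy, pow_succ]
    nlinarith [mul_le_mul hqk hq1 zero_le_one (by linarith)]
  have hy1 : 1 ≤ y := le_trans hq1 hyq
  have hy0 : 0 < y := by linarith
  have hε' : 1 / y ≤ ε / 4 := by
    rw [div_le_iff₀ hy0]
    have : (1 / (ε / 4)) * (ε / 4) = 1 := by field_simp
    nlinarith
  have hε'0 : 0 < 1 / y := by positivity
  obtain ⟨m, hi, f, C, hm1, hm2, hf, hC, hcl⟩ := h (1 / y) hε'0 (by
    rw [div_le_iff₀ hy0]; linarith)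
  have hyy : 1 / (1 / y) = y := by field_simp
  rw [hyy] at hm2 hf
  have hfpos := f_pos C hC
  have hr1 : (1 : ℝ) ≤ r₀ := by exact_mod_cast hr₀
  -- the size is large
  have hmy : 16 * (r₀ : ℝ) * y ≤ m := by
    have e : ((16 * r₀ : ℕ) : ℝ) / (1 / y) = 16 * (r₀ : ℝ) * y := by
      push_cast; field_simp
    rw [e] at hm1; exact hm1
  have hTm : (c₁ : ℝ) * (1 / (ε / 4)) ^ k₁ ≤ m := by
    have e1 : (1 / (ε / 4)) ^ k₁ ≤ (1 / (ε / 4)) ^ (k₁ + 1) :=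
      pow_le_pow_right₀ hq1 (Nat.le_succ k₁)
    have e2 : (c₁ : ℝ) * (1 / (ε / 4)) ^ k₁ ≤ y := by
      rw [hy]
      have : (0 : ℝ) ≤ (1 / (ε / 4)) ^ (k₁ + 1) := by linarith
      nlinarith
    nlinarith
  have hm3 : 16 * (r₀ : ℝ) / (ε / 4) ≤ m := by
    refine le_trans ?_ hmy
    rw [div_eq_mul_one_div]
    exact mul_le_mul_of_nonneg_left hyq (by positivity)
  obtain ⟨A, hA⟩ := hmain (ε / 4) (by linarith) (by linarith) m hm3 f C hC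
  -- polynomial bounds
  have hyk : y ^ k₂ = ((c₁ : ℝ) + 1) ^ k₂ * (1 / (ε / 4)) ^ k' := by
    rw [hy, mul_pow, ← pow_mul]
  have e4 : ε / 4 = (ε / 2) / 2 := by ring
  have hmb : (m : ℝ) ≤ c' * (1 / ((ε / 2) / 2)) ^ k' := by
    refine hm2.trans (le_of_eq ?_)
    rw [hyk, hc', ← e4]; push_cast; ring
  have hfb : (f : ℝ) ≤ c' * (1 / ((ε / 2) / 2)) ^ k' := by
    refine hf.trans (le_of_eq ?_)
    rw [hyk, hc', ← e4]; push_cast; ring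
  have hDb := poly_bound c' k' (ε / 2) (by linarith) (by linarith) m f hmb hfb
  rw [← e4, ← hN₁] at hDb
  have hDb' : (bondG m f (ε / 4) : ℝ) ≤ ((N₁ * 2 ^ (6 * k' + 2) : ℕ) : ℝ) * x ^ (6 * k' + 2) := by
    refine hDb.trans (le_of_eq ?_)
    have h2x : (1 / (ε / 2)) = 2 * x := by rw [hx]; field_simp
    rw [h2x, Nat.cast_mul, mul_pow (2 : ℝ) x, Nat.cast_pow, Nat.cast_ofNat, mul_assoc]
  refine ⟨bondG m f (ε / 4), A, hDb', ?_⟩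
  intro L _ hL
  have hDL : bondG m f (ε / 4) ≤ L := by exact_mod_cast hDb'.trans hL
  have hm0 : 0 < m := Nat.pos_of_ne_zero (NeZero.ne m)
  have hrm : r₀ ≤ m := by
    have : (r₀ : ℝ) ≤ m := by nlinarith
    exact_mod_cast this
  have hMpos : 0 < ⌈24 / (ε / 4)⌉₊ := Nat.ceil_pos.2 (by positivity)
  have hthr : r₀ + (m * ⌈24 / (ε / 4)⌉₊ + 3) ^ 2 ≤ L ∧ m ≤ L := by
    set M := ⌈24 / (ε / 4)⌉₊ with hM
    have h1 : m ≤ m * M := Nat.le_mul_of_pos_right m hMpos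
    have h2 : (2 * (m * M + 2)) ^ 2 ≤ bondG m f (ε / 4) := by
      unfold bondG
      exact Nat.le_mul_of_pos_right _ (pow_pos hfpos 4)
    constructor
    · refine le_trans ?_ (h2.trans hDL)
      nlinarith
    · refine le_trans ?_ (h2.trans hDL)
      nlinarith
  obtain ⟨h1, h2⟩ := hA L hthr.1
  refine ⟨h1, ?_⟩
  have hTL : (c₁ : ℝ) * (1 / (ε / 4)) ^ k₁ ≤ L := by
    refine hTm.trans ?_
    exact_mod_cast hthr.2
  have h3 : Close R (Ψ L) (pepsN C) (ε / 4 + 1 / y) :=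
    close_trans (hconv (ε / 4) (by linarith) (by linarith) L m hTL hTm) hcl
  have h4 := h2 L (Ψ L) (ε / 4 + 1 / y) (by omega) h3
  exact close_mono h4 (by linarith)

end Pool.Agent.Y738.PE
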