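import Pool.Agent.Y738.PE.AE3

/-! # The universal list for regions in a box -/

open scoped BigOperators ComplexConjugate Classical Topology

noncomputable section

namespace Pool.Agent.Y738.PE

theorem list_box (d q : ℕ) (hd : 2 ≤ d) (hq : 0 < q) (ε : ℝ) (hε : 0 < ε) (hε1 : ε ≤ 1) :
    ∃ (L₀ K : ℕ) (A : Fin K → Tensor d (bond d q ε)), ∀ (L : ℕ) [NeZero L], L₀ ≤ L →
      ∀ Ψ : Conf d L → ℂ, nrm Ψ = 1 → TransInv Ψ → ∃ k : Fin K,
        ∀ (L' : ℕ) [NeZero L'], L₀ ≤ L' → nrm (pepsX (A k) L') ≠ 0 ∧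
          ∀ R, InBox q R → Close R Ψ (pepsX (A k) L') ε := by
  obtain ⟨L₀, K, A, hA⟩ := universal_box Pool.Agent.Y978.PE.collapse
      Pool.Agent.Y562.PE.orth Pool.Agent.Y297.PE.factor Pool.Agent.Y65.PE.weights
      Pool.Agent.Y328.PE.shiftMain Pool.Agent.Y794.PE.exist Pool.Agent.Y794.PE.nonzero
      Pool.Agent.Y65.PE.bound Pool.Agent.Y65.PE.purify Pool.Agent.Y585.PE.net
      Pool.Agent.Y328.PE.pepsMain hd hq hε hε1
  refine ⟨max L₀ q, K, A, ?_⟩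
  intro L _ hL Ψ hn hTI
  obtain ⟨k, hk⟩ := hA L (by omega) Ψ hn (transInv_expec Ψ hn hTI q)
  refine ⟨k, fun L' _ hL' => ?_⟩
  obtain ⟨h1, h2⟩ := hk L' (by omega)
  refine ⟨h1.ne', fun R hR u v B hBc => ?_⟩
  obtain ⟨B', hB', hBB⟩ := Pool.Agent.Y759.PE.regionIn d q R hR B hBc
  rw [hBB L (by omega), hBB L' (by omega), hn, norm_sub_rev]
  simpa using h2 u v B' hB'

end Pool.Agent.Y738.PE
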