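import Pool.Agent.Y738.PE.Gen

/-! # Convergence of marginals and local approximation for almost every interaction -/

open scoped BigOperators ComplexConjugate Classical Topology

noncomputable section

namespace Pool.Agent.Y738.PE

/-- The limit of the ground energy densities. -/
theorem gd_limit {d q : ℕ} (C : NNReal)
    (hcau : ∀ (X : BConf d q → BConf d q → ℝ) (δ : ℝ), 0 < δ → ∃ L₀ : ℕ, ∀ L L' : ℕ, L₀ ≤ L →
      L₀ ≤ L' → gd L' X ≤ gd L X + δ)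
    (hlip : ∀ (L : ℕ), L ≠ 0 → q ≤ L → ∀ X Z : BConf d q → BConf d q → ℝ,
      gd L Z ≤ gd L X + C * ‖Z - X‖) :
    ∃ F : (BConf d q → BConf d q → ℝ) → ℝ,
      (∀ X, Filter.Tendsto (fun L => gd L X) Filter.atTop (𝓝 (F X))) ∧ LipschitzWith C F := by
  have h1 : ∀ X : BConf d q → BConf d q → ℝ, ∃ y : ℝ,
      Filter.Tendsto (fun L => gd L X) Filter.atTop (𝓝 y) := by
    intro X
    refine cauchySeq_tendsto_of_complete (Metric.cauchySeq_iff'.2 fun ε hε => ?_)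
    obtain ⟨N, hN⟩ := hcau X (ε / 2) (by linarith)
    refine ⟨N, fun n hn => ?_⟩
    have e1 := hN n N hn le_rfl
    have e2 := hN N n le_rfl hn
    rw [Real.dist_eq, abs_lt]
    constructor <;> linarith
  choose F hF using h1
  refine ⟨F, hF, LipschitzWith.of_le_add_mul C fun Z X => ?_⟩
  have h2 := (hF X).add_const ((C : ℝ) * dist Z X)
  refine le_of_tendsto_of_tendsto (hF Z) h2 ?_
  filter_upwards [Filter.eventually_ge_atTop (max q 1)] with L hL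
  have h3 := hlip L (by omega) (by omega) X Z
  rwa [← dist_eq_norm] at h3

/-- The expectation as a linear functional of the interaction. -/
theorem exists_rho (hB : StmEnergyB) {d q L : ℕ} [NeZero L] (Ψ : Conf d L → ℂ) :
    ∃ ρ : (BConf d q → BConf d q → ℝ) →ₗ[ℝ] ℝ, ∀ Y, ρ Y = (expec Ψ 0 (hermOf Y)).re := by
  have h0 : expec Ψ 0 (hermOf (0 : BConf d q → BConf d q → ℝ)) = 0 := by
    unfold expec hermOf
    simp
  refine ⟨{ toFun := fun Y => (expec Ψ 0 (hermOf Y)).re, map_add' := ?_, map_smul' := ?_ },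
    fun Y => rfl⟩
  · intro X Y
    have h := hB.1 d q L X Y 1 Ψ 0
    rw [one_smul] at h
    rw [h]
    simp
  · intro t Y
    have h := hB.1 d q L 0 Y t Ψ 0
    rw [zero_add, h0, zero_add] at h
    show (expec Ψ 0 (hermOf (t • Y))).re = t • (expec Ψ 0 (hermOf Y)).re
    rw [h, Complex.re_ofReal_mul, smul_eq_mul]

theorem expec_decomp {d q L : ℕ} [NeZero L] (Ψ : Conf d L → ℂ) (v : Site L)
    (B B1 B2 : BConf d q → BConf d q → ℂ) (h : ∀ σ τ, B σ τ = B1 σ τ + Complex.I * B2 σ τ) :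
    expec Ψ v B = expec Ψ v B1 + Complex.I * expec Ψ v B2 := by
  unfold expec
  rw [Finset.mul_sum, ← Finset.sum_add_distrib]
  refine Finset.sum_congr rfl fun s _ => ?_
  rw [Finset.mul_sum, ← Finset.sum_add_distrib]
  refine Finset.sum_congr rfl fun τ _ => ?_
  rw [h]
  ring

/-- Convergence of the marginals at a point of differentiability. -/
theorem conv_at (hA : StmEnergyA) (hB : StmEnergyB) (hC : StmEnergyC) (hE : StmGroundExists)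
    (hG : StmGrad) {d q : ℕ} (hd : 2 ≤ d) (F : (BConf d q → BConf d q → ℝ) → ℝ)
    (hF : ∀ X, Filter.Tendsto (fun L => gd L X) Filter.atTop (𝓝 (F X)))
    (X : BConf d q → BConf d q → ℝ) (F' : (BConf d q → BConf d q → ℝ) →L[ℝ] ℝ)
    (hX : HasFDerivAt F F' X) :
    ∀ δ : ℝ, 0 < δ → ∃ L₁ : ℕ, ∀ (L L' : ℕ) [NeZero L] [NeZero L'], L₁ ≤ L → L₁ ≤ L' →
      ∀ (Ψ : Conf d L → ℂ) (Ψ' : Conf d L' → ℂ), IsGround (hermOf X) L Ψ → TransInv Ψ →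
      IsGround (hermOf X) L' Ψ' → TransInv Ψ' → ∀ B : BConf d q → BConf d q → ℂ, Contr B →
      ‖expec Ψ 0 B - expec Ψ' 0 B‖ ≤ δ := by
  intro δ hδ
  obtain ⟨L₁, hL₁⟩ := hG _ (fun L Z => gd L Z) F X F' hX hF (δ / 4) (by linarith)
  refine ⟨max L₁ q, ?_⟩
  have key : ∀ (L : ℕ) [NeZero L], max L₁ q ≤ L → ∀ Ψ : Conf d L → ℂ,
      IsGround (hermOf X) L Ψ → TransInv Ψ → ∀ Y : BConf d q → BConf d q → ℝ, ‖Y‖ ≤ 1 →
      ‖expec Ψ 0 (hermOf Y) - ((F' Y : ℝ) : ℂ)‖ ≤ δ / 4 := by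
    intro L _ hL Ψ hΨ hTI Y hY
    obtain ⟨ρ, hρ⟩ := exists_rho (q := q) hB Ψ
    have h1 := hL₁ L (le_trans (le_max_left _ _) hL) ρ (fun Z => by
      rw [hρ]
      exact gd_super hA hB hE (by omega) (le_trans (le_max_right _ _) hL) X Z Ψ hΨ hTI) Y
    have h2 : expec Ψ 0 (hermOf Y) = ((ρ Y : ℝ) : ℂ) := by
      have h3 := hB.2.2 d q L (le_trans (le_max_right _ _) hL) Y Ψ 0
      refine Complex.ext ?_ ?_
      · rw [hρ, Complex.ofReal_re]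
      · rw [h3, Complex.ofReal_im]
    rw [h2, ← Complex.ofReal_sub, Complex.norm_real, Real.norm_eq_abs]
    refine h1.trans ?_
    have : δ / 4 * ‖Y‖ ≤ δ / 4 * 1 := mul_le_mul_of_nonneg_left hY (by linarith)
    linarith
  intro L L' _ _ hL hL' Ψ Ψ' hΨ hTI hΨ' hTI' B hBc
  obtain ⟨Y, Z, hY, hZ, hYZ⟩ := hC.2 d q B hBc
  rw [expec_decomp Ψ 0 B _ _ hYZ, expec_decomp Ψ' 0 B _ _ hYZ]
  have a1 := key L hL Ψ hΨ hTI Y hY
  have a2 := key L hL Ψ hΨ hTI Z hZ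
  have a3 := key L' hL' Ψ' hΨ' hTI' Y hY
  have a4 := key L' hL' Ψ' hΨ' hTI' Z hZ
  have e : expec Ψ 0 (hermOf Y) + Complex.I * expec Ψ 0 (hermOf Z) -
      (expec Ψ' 0 (hermOf Y) + Complex.I * expec Ψ' 0 (hermOf Z)) =
      ((expec Ψ 0 (hermOf Y) - ((F' Y : ℝ) : ℂ)) - (expec Ψ' 0 (hermOf Y) - ((F' Y : ℝ) : ℂ))) +
      Complex.I * ((expec Ψ 0 (hermOf Z) - ((F' Z : ℝ) : ℂ)) -
        (expec Ψ' 0 (hermOf Z) - ((F' Z : ℝ) : ℂ))) := by ring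
  rw [e]
  refine (norm_add_le _ _).trans ?_
  rw [norm_mul, Complex.norm_I, one_mul]
  have b1 := norm_sub_le (expec Ψ 0 (hermOf Y) - ((F' Y : ℝ) : ℂ))
    (expec Ψ' 0 (hermOf Y) - ((F' Y : ℝ) : ℂ))
  have b2 := norm_sub_le (expec Ψ 0 (hermOf Z) - ((F' Z : ℝ) : ℂ))
    (expec Ψ' 0 (hermOf Z) - ((F' Z : ℝ) : ℂ))
  linarith

/-- The regions inside the `q × q` box. -/
def InBox (q : ℕ) (R : Finset (ℤ × ℤ)) : Prop :=
  ∀ p ∈ R, (0 ≤ p.1 ∧ p.1 < (q : ℤ)) ∧ (0 ≤ p.2 ∧ p.2 < (q : ℤ))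

/-- The main theorem for almost every interaction. -/
theorem ae_main (hA : StmEnergyA) (hB : StmEnergyB) (hC : StmEnergyC) (hE : StmGroundExists)
    (hG : StmGrad) (hRad : StmRad) (hRI : StmRegionIn) (hPTI : StmPepsTI)
    (hbox : ∀ {d : ℕ}, 2 ≤ d → ∀ {r : ℕ}, 0 < r → ∀ {ε : ℝ}, 0 < ε → ε ≤ 1 →
    ∃ (L₀ K : ℕ) (A : Fin K → Tensor d (bond d r ε)),
      ∀ (L : ℕ) [NeZero L], L₀ ≤ L → ∀ Ψ : Conf d L → ℂ, nrm Ψ = 1 →
      (∀ (v : Site L) (B : BConf d r → BConf d r → ℂ), expec Ψ v B = expec Ψ 0 B) →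
      ∃ k, ∀ (L' : ℕ) [NeZero L'], L₀ ≤ L' → 0 < nrm (pepsX (A k) L') ∧
        ∀ (u : Site L) (v : Site L') (B : BConf d r → BConf d r → ℂ), Contr B →
          ‖expec (pepsX (A k) L') v B / (nrm (pepsX (A k) L') : ℂ) - expec Ψ u B‖ ≤ ε)
    (hcon : ∀ (d q : ℕ) (h : BConf d q → BConf d q → ℂ) (c : ℝ), 0 < c → entrySum h ≤ c →
      Contr (fun σ τ => ((c⁻¹ : ℝ) : ℂ) * h σ τ))
    (d q : ℕ) (hd : 2 ≤ d) (hq : 0 < q) :
    ∀ᵐ X : BConf d q → BConf d q → ℝ,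
      (∀ δ : ℝ, 0 < δ → ∃ L₁ : ℕ, ∀ (L L' : ℕ) [NeZero L] [NeZero L'], L₁ ≤ L → L₁ ≤ L' →
        ∀ (Ψ : Conf d L → ℂ) (Ψ' : Conf d L' → ℂ), IsGround (hermOf X) L Ψ → TransInv Ψ →
        IsGround (hermOf X) L' Ψ' → TransInv Ψ' → ∀ R, InBox q R → Close R Ψ Ψ' δ) ∧
      (∀ ε : ℝ, 0 < ε → ε ≤ 1 → ∃ (A : Tensor d (bond d q ε)) (L₁ : ℕ),
        ∀ (L : ℕ) [NeZero L], L₁ ≤ L → nrm (pepsX A L) ≠ 0 ∧
        ∀ Ψ : Conf d L → ℂ, IsGround (hermOf X) L Ψ → TransInv Ψ → ∀ R, InBox q R →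
          Close R Ψ (pepsX A L) (2 * ε)) := by
  set C : NNReal := ⟨4 * (Fintype.card (BConf d q) : ℝ) ^ 2, by positivity⟩ with hCdef
  have hcau : ∀ (X : BConf d q → BConf d q → ℝ) (δ : ℝ), 0 < δ → ∃ L₀ : ℕ, ∀ L L' : ℕ, L₀ ≤ L →
      L₀ ≤ L' → gd L' X ≤ gd L X + δ := fun X => gd_cauchy hA hE hPTI hbox hcon hd hq X
  have hlip : ∀ (L : ℕ), L ≠ 0 → q ≤ L → ∀ X Z : BConf d q → BConf d q → ℝ,
      gd L Z ≤ gd L X + C * ‖Z - X‖ := by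
    intro L hL0 hqL X Z
    have hi : NeZero L := ⟨hL0⟩
    exact gd_lip hA hB hC hE (by omega) hqL X Z
  obtain ⟨F, hF, hFL⟩ := gd_limit C hcau hlip
  filter_upwards [hRad d q F C hFL] with X hX
  obtain ⟨F', hF'⟩ := hX
  have hconv := conv_at hA hB hC hE hG hd F hF X F' hF'
  refine ⟨?_, ?_⟩
  · intro δ hδ
    obtain ⟨L₁, hL₁⟩ := hconv δ hδ
    refine ⟨max L₁ q, ?_⟩
    intro L L' _ _ hL hL' Ψ Ψ' hΨ hTI hΨ' hTI' R hR u v B hBc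
    obtain ⟨B', hB', hBB⟩ := hRI d q R hR B hBc
    rw [hBB L (le_trans (le_max_right _ _) hL), hBB L' (le_trans (le_max_right _ _) hL'),
      transInv_expec Ψ hΨ.1 hTI, transInv_expec Ψ' hΨ'.1 hTI', hΨ.1, hΨ'.1]
    simpa using hL₁ L L' (le_trans (le_max_left _ _) hL) (le_trans (le_max_left _ _) hL') Ψ Ψ'
      hΨ hTI hΨ' hTI' B' hB'
  · intro ε hε hε1
    obtain ⟨L₁, hL₁⟩ := hconv ε hε
    obtain ⟨L₀, K, A, hA'⟩ := hbox hd hq hε hε1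
    set N : ℕ := max (max L₁ q) L₀ + 1 with hN
    have hi : NeZero N := ⟨by omega⟩
    obtain ⟨Ψ₀, hΨ₀, hTI₀⟩ := hE d q N (by omega) (by omega) X
    obtain ⟨k, hk⟩ := hA' N (by omega) Ψ₀ hΨ₀.1 (transInv_expec Ψ₀ hΨ₀.1 hTI₀ q)
    refine ⟨A k, N, ?_⟩
    intro L _ hL
    obtain ⟨h1, h2⟩ := hk L (by omega)
    refine ⟨h1.ne', ?_⟩
    intro Ψ hΨ hTI R hR u v B hBc
    obtain ⟨B', hB', hBB⟩ := hRI d q R hR B hBc
    rw [hBB L (by omega), hBB L (by omega), transInv_expec Ψ hΨ.1 hTI, hΨ.1]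
    have h3 := h2 0 v B' hB'
    have h4 := hL₁ L N (by omega) (by omega) Ψ Ψ₀ hΨ hTI hΨ₀ hTI₀ B' hB'
    have h5 := norm_sub_le_norm_sub_add_norm_sub (expec Ψ 0 B') (expec Ψ₀ 0 B')
      (expec (pepsX (A k) L) v B' / (nrm (pepsX (A k) L) : ℂ))
    rw [norm_sub_rev (expec Ψ₀ 0 B')] at h5
    have h6 : expec Ψ 0 B' / ((1 : ℝ) : ℂ) = expec Ψ 0 B' := by simp
    rw [h6]
    linarith

end Pool.Agent.Y738.PE
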