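import Pool.Agent.Y738.PE.Univ
import Pool.Agent.Y738.PE.Gen2
import Pool.Agent.Y759.PE.RegionIn
import Pool.Agent.Y331.PE.EnergyA
import Pool.Agent.Y675.PE.EnergyB
import Pool.Agent.Y236.PE.EnergyC
import Pool.Agent.Y273.PE.Rad
import Pool.Agent.Y932.PE.GroundExists
import Pool.Agent.Y44.PE.Gapped
import Pool.Agent.Y931.PE.Grad

/-! # Local approximation for almost every interaction, unconditionally -/

open scoped BigOperators ComplexConjugate Classical Topology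

noncomputable section

namespace Pool.Agent.Y738.PE

theorem contr_inv (d q : ℕ) (h : BConf d q → BConf d q → ℂ) (c : ℝ) (hc : 0 < c)
    (hh : entrySum h ≤ c) : Contr (fun σ τ => ((c⁻¹ : ℝ) : ℂ) * h σ τ) := by
  intro f
  have hrow : ∀ σ, ‖∑ τ, ((c⁻¹ : ℝ) : ℂ) * h σ τ * f τ‖ ≤
      c⁻¹ * ((∑ τ, ‖h σ τ‖) * Real.sqrt (nrm f)) := by
    intro σ
    refine (norm_sum_le _ _).trans ?_
    rw [Finset.sum_mul, Finset.mul_sum]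
    refine Finset.sum_le_sum fun τ _ => ?_
    rw [norm_mul, norm_mul, Complex.norm_real, Real.norm_eq_abs, abs_of_pos (inv_pos.2 hc),
      mul_assoc]
    refine mul_le_mul_of_nonneg_left (mul_le_mul_of_nonneg_left ?_ (norm_nonneg _))
      (inv_pos.2 hc).le
    refine Real.le_sqrt_of_sq_le ?_
    exact Finset.single_le_sum (f := fun τ => ‖f τ‖ ^ 2) (fun _ _ => by positivity)
      (Finset.mem_univ τ)
  have hnn : 0 ≤ nrm f := nrm_nonneg f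
  have hrow2 : ∀ σ, ‖∑ τ, ((c⁻¹ : ℝ) : ℂ) * h σ τ * f τ‖ ^ 2 ≤
      (c⁻¹ ^ 2 * nrm f) * (∑ τ, ‖h σ τ‖) ^ 2 := by
    intro σ
    calc ‖∑ τ, ((c⁻¹ : ℝ) : ℂ) * h σ τ * f τ‖ ^ 2
        ≤ (c⁻¹ * ((∑ τ, ‖h σ τ‖) * Real.sqrt (nrm f))) ^ 2 :=
          pow_le_pow_left₀ (norm_nonneg _) (hrow σ) 2
      _ = (c⁻¹ ^ 2 * (Real.sqrt (nrm f)) ^ 2) * (∑ τ, ‖h σ τ‖) ^ 2 := by ring
      _ = _ := by rw [Real.sq_sqrt hnn]
  have hsq : ∑ σ, (∑ τ, ‖h σ τ‖) ^ 2 ≤ (entrySum h) ^ 2 :=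
    Finset.sum_sq_le_sq_sum_of_nonneg fun σ _ => Finset.sum_nonneg fun τ _ => norm_nonneg _
  unfold nrm at *
  calc ∑ σ, ‖∑ τ, ((c⁻¹ : ℝ) : ℂ) * h σ τ * f τ‖ ^ 2
      ≤ ∑ σ, (c⁻¹ ^ 2 * ∑ s, ‖f s‖ ^ 2) * (∑ τ, ‖h σ τ‖) ^ 2 :=
        Finset.sum_le_sum fun σ _ => hrow2 σ
    _ = (c⁻¹ ^ 2 * ∑ s, ‖f s‖ ^ 2) * ∑ σ, (∑ τ, ‖h σ τ‖) ^ 2 := by rw [← Finset.mul_sum]
    _ ≤ (c⁻¹ ^ 2 * ∑ s, ‖f s‖ ^ 2) * c ^ 2 := by
        refine mul_le_mul_of_nonneg_left ?_ (by positivity)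
        refine hsq.trans ?_
        have h0 : 0 ≤ entrySum h :=
          Finset.sum_nonneg fun σ _ => Finset.sum_nonneg fun τ _ => norm_nonneg _
        exact pow_le_pow_left₀ h0 hh 2
    _ = ∑ s, ‖f s‖ ^ 2 := by
        field_simp

theorem ae_all (d q : ℕ) (hd : 2 ≤ d) (hq : 0 < q) :
    ∀ᵐ X : BConf d q → BConf d q → ℝ,
      (∀ δ : ℝ, 0 < δ → ∃ L₁ : ℕ, ∀ (L L' : ℕ) [NeZero L] [NeZero L'], L₁ ≤ L → L₁ ≤ L' →
        ∀ (Ψ : Conf d L → ℂ) (Ψ' : Conf d L' → ℂ), IsGround (hermOf X) L Ψ → TransInv Ψ →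
        IsGround (hermOf X) L' Ψ' → TransInv Ψ' → ∀ R, InBox q R → Close R Ψ Ψ' δ) ∧
      (∀ ε : ℝ, 0 < ε → ε ≤ 1 → ∃ (A : Tensor d (bond d q ε)) (L₁ : ℕ),
        ∀ (L : ℕ) [NeZero L], L₁ ≤ L → nrm (pepsX A L) ≠ 0 ∧
        ∀ Ψ : Conf d L → ℂ, IsGround (hermOf X) L Ψ → TransInv Ψ → ∀ R, InBox q R →
          Close R Ψ (pepsX A L) (2 * ε)) :=
  ae_main Pool.Agent.Y331.PE.t_EnergyA Pool.Agent.Y675.PE.energyB Pool.Agent.Y236.PE.energyC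
    Pool.Agent.Y932.PE.groundExists Pool.Agent.Y931.PE.grad Pool.Agent.Y273.PE.t_rad
    Pool.Agent.Y759.PE.regionIn Pool.Agent.Y328.PE.pepsMain
    (fun {_} hd {_} hr {_} hε hε1 => universal_box Pool.Agent.Y978.PE.collapse
      Pool.Agent.Y562.PE.orth Pool.Agent.Y297.PE.factor Pool.Agent.Y65.PE.weights
      Pool.Agent.Y328.PE.shiftMain Pool.Agent.Y794.PE.exist Pool.Agent.Y794.PE.nonzero
      Pool.Agent.Y65.PE.bound Pool.Agent.Y65.PE.purify Pool.Agent.Y585.PE.net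
      Pool.Agent.Y328.PE.pepsMain hd hr hε hε1)
    contr_inv d q hd hq

end Pool.Agent.Y738.PE
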