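import Pool.Agent.Y738.PE.AE

/-! # The variational principle: near-minimal energy density gives the right marginals -/

open scoped BigOperators ComplexConjugate Classical Topology

noncomputable section

namespace Pool.Agent.Y738.PE

/-- Approximate supergradients. -/
theorem grad_approx (hG : StmGrad) (E : Type) [NormedAddCommGroup E] [NormedSpace ℝ E]
    [FiniteDimensional ℝ E] (g : ℕ → E → ℝ) (F : E → ℝ) (X : E) (F' : E →L[ℝ] ℝ)
    (hF' : HasFDerivAt F F' X)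
    (hg : ∀ Z, Filter.Tendsto (fun L => g L Z) Filter.atTop (𝓝 (F Z))) (δ : ℝ) (hδ : 0 < δ) :
    ∃ η : ℝ, 0 < η ∧ ∃ L₁ : ℕ, ∀ L, L₁ ≤ L → ∀ ρ : E →ₗ[ℝ] ℝ,
      (∀ Z, g L Z ≤ F X + η + ρ (Z - X)) → ∀ Y, |ρ Y - F' Y| ≤ δ * ‖Y‖ := by
  by_contra hcon
  push Not at hcon
  have h1 : ∀ n : ℕ, ∃ L, n ≤ L ∧ ∃ ρ : E →ₗ[ℝ] ℝ,
      (∀ Z, g L Z ≤ F X + 1 / ((n : ℝ) + 1) + ρ (Z - X)) ∧ ∃ Y, δ * ‖Y‖ < |ρ Y - F' Y| :=
    fun n => hcon (1 / ((n : ℝ) + 1)) (by positivity) n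
  choose Ls hLs ρs hρs Ys hYs using h1
  have h2 := hG E (fun n Z => if Z = X then F X + 1 / ((n : ℝ) + 1) else g (Ls n) Z) F X F' hF'
    (by
      intro Z
      by_cases hZ : Z = X
      · subst hZ
        simp only [if_true]
        have h3 := (tendsto_one_div_add_atTop_nhds_zero_nat (𝕜 := ℝ)).const_add (F Z)
        simpa using h3
      · simp only [if_neg hZ]
        exact (hg Z).comp (Filter.tendsto_atTop_mono hLs Filter.tendsto_id)) δ hδ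
  obtain ⟨n, hn⟩ := h2
  have h3 := hn n le_rfl (ρs n) (by
    intro Z
    simp only [if_true]
    by_cases hZ : Z = X
    · rw [if_pos hZ, hZ, sub_self, map_zero, add_zero]
    · rw [if_neg hZ]; exact hρs n Z) (Ys n)
  exact absurd h3 (not_le.2 (hYs n))

theorem gd_le (hB : StmEnergyB) (hA : StmEnergyA) (hE : StmGroundExists) {d q L : ℕ} [NeZero L]
    (hd : 0 < d) (hqL : q ≤ L) (X Z : BConf d q → BConf d q → ℝ) (Ψ : Conf d L → ℂ)
    (hn : nrm Ψ = 1) (hTI : ∀ (v : Site L) (B : BConf d q → BConf d q → ℂ),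
      expec Ψ v B = expec Ψ 0 B) (u : ℝ) (hu : en (hermOf X) L Ψ ≤ u * (L : ℝ) ^ 2) :
    gd L Z ≤ u + (expec Ψ 0 (hermOf (Z - X))).re := by
  have hL0 : (0 : ℝ) < (L : ℝ) ^ 2 := by
    have : L ≠ 0 := NeZero.ne L
    positivity
  obtain ⟨Ψ', hΨ', -⟩ := hE d q L hd hqL Z
  rw [gd_eq Z Ψ' hΨ', div_le_iff₀ hL0]
  have h1 := hΨ'.2 Ψ hn
  rw [en_split hB X Z Ψ, hA.1 d q L (hermOf (Z - X)) Ψ (fun v => hTI v _)] at h1
  nlinarith

/-- Near-minimal energy density gives the right marginals. -/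
theorem conv_var (hA : StmEnergyA) (hB : StmEnergyB) (hC : StmEnergyC) (hE : StmGroundExists)
    (hG : StmGrad) {d q : ℕ} (hd : 2 ≤ d) (F : (BConf d q → BConf d q → ℝ) → ℝ)
    (hF : ∀ X, Filter.Tendsto (fun L => gd L X) Filter.atTop (𝓝 (F X)))
    (X : BConf d q → BConf d q → ℝ) (F' : (BConf d q → BConf d q → ℝ) →L[ℝ] ℝ)
    (hX : HasFDerivAt F F' X) :
    ∀ δ : ℝ, 0 < δ → ∃ η : ℝ, 0 < η ∧ ∃ L₁ : ℕ, ∀ (L L' : ℕ) [NeZero L] [NeZero L'],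
      L₁ ≤ L → L₁ ≤ L' → ∀ (Ψ : Conf d L → ℂ) (Ψ' : Conf d L' → ℂ), nrm Ψ = 1 → nrm Ψ' = 1 →
      (∀ (v : Site L) (B : BConf d q → BConf d q → ℂ), expec Ψ v B = expec Ψ 0 B) →
      (∀ (v : Site L') (B : BConf d q → BConf d q → ℂ), expec Ψ' v B = expec Ψ' 0 B) →
      en (hermOf X) L Ψ ≤ (F X + η) * (L : ℝ) ^ 2 →
      en (hermOf X) L' Ψ' ≤ (F X + η) * (L' : ℝ) ^ 2 →
      ∀ B : BConf d q → BConf d q → ℂ, Contr B → ‖expec Ψ 0 B - expec Ψ' 0 B‖ ≤ δ := by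
  intro δ hδ
  obtain ⟨η, hη, L₁, hL₁⟩ := grad_approx hG _ (fun L Z => gd L Z) F X F' hX hF (δ / 4)
    (by linarith)
  refine ⟨η, hη, max L₁ q, ?_⟩
  have key : ∀ (L : ℕ) [NeZero L], max L₁ q ≤ L → ∀ Ψ : Conf d L → ℂ, nrm Ψ = 1 →
      (∀ (v : Site L) (B : BConf d q → BConf d q → ℂ), expec Ψ v B = expec Ψ 0 B) →
      en (hermOf X) L Ψ ≤ (F X + η) * (L : ℝ) ^ 2 →
      ∀ Y : BConf d q → BConf d q → ℝ, ‖Y‖ ≤ 1 →
      ‖expec Ψ 0 (hermOf Y) - ((F' Y : ℝ) : ℂ)‖ ≤ δ / 4 := by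
    intro L _ hL Ψ hn hTI hen Y hY
    obtain ⟨ρ, hρ⟩ := exists_rho (q := q) hB Ψ
    have h1 := hL₁ L (le_trans (le_max_left _ _) hL) ρ (fun Z => by
      rw [hρ]
      exact gd_le hB hA hE (by omega) (le_trans (le_max_right _ _) hL) X Z Ψ hn hTI _ hen) Y
    have h2 : expec Ψ 0 (hermOf Y) = ((ρ Y : ℝ) : ℂ) := by
      have h3 := hB.2.2 d q L (le_trans (le_max_right _ _) hL) Y Ψ 0
      refine Complex.ext ?_ ?_
      · rw [hρ, Complex.ofReal_re]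
      · rw [h3, Complex.ofReal_im]
    rw [h2, ← Complex.ofReal_sub, Complex.norm_real, Real.norm_eq_abs]
    refine h1.trans ?_
    have : δ / 4 * ‖Y‖ ≤ δ / 4 * 1 := mul_le_mul_of_nonneg_left hY (by linarith)
    linarith
  intro L L' _ _ hL hL' Ψ Ψ' hn hn' hTI hTI' hen hen' B hBc
  obtain ⟨Y, Z, hY, hZ, hYZ⟩ := hC.2 d q B hBc
  rw [expec_decomp Ψ 0 B _ _ hYZ, expec_decomp Ψ' 0 B _ _ hYZ]
  have a1 := key L hL Ψ hn hTI hen Y hY
  have a2 := key L hL Ψ hn hTI hen Z hZ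
  have a3 := key L' hL' Ψ' hn' hTI' hen' Y hY
  have a4 := key L' hL' Ψ' hn' hTI' hen' Z hZ
  have e : expec Ψ 0 (hermOf Y) + Complex.I * expec Ψ 0 (hermOf Z) -
      (expec Ψ' 0 (hermOf Y) + Complex.I * expec Ψ' 0 (hermOf Z)) =
      ((expec Ψ 0 (hermOf Y) - ((F' Y : ℝ) : ℂ)) - (expec Ψ' 0 (hermOf Y) - ((F' Y : ℝ) : ℂ))) +
      Complex.I * ((expec Ψ 0 (hermOf Z) - ((F' Z : ℝ) : ℂ)) -
        (expec Ψ' 0 (hermOf Z) - ((F' Z : ℝ) : ℂ))) := by ring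
  rw [e]
  refine (norm_add_le _ _).trans ?_
  rw [norm_mul, Complex.norm_I, one_mul]
  have b1 := norm_sub_le (expec Ψ 0 (hermOf Y) - ((F' Y : ℝ) : ℂ))
    (expec Ψ' 0 (hermOf Y) - ((F' Y : ℝ) : ℂ))
  have b2 := norm_sub_le (expec Ψ 0 (hermOf Z) - ((F' Z : ℝ) : ℂ))
    (expec Ψ' 0 (hermOf Z) - ((F' Z : ℝ) : ℂ))
  linarith

/-- The variational theorem. -/
theorem variational (d q : ℕ) (hd : 2 ≤ d) (hq : 0 < q) :
    ∃ F : (BConf d q → BConf d q → ℝ) → ℝ,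
      (∀ (X : BConf d q → BConf d q → ℝ) (δ : ℝ), 0 < δ → ∃ L₁ : ℕ, ∀ (L : ℕ) [NeZero L],
        L₁ ≤ L → ∀ Ψ : Conf d L → ℂ, IsGround (hermOf X) L Ψ →
          |en (hermOf X) L Ψ / (L : ℝ) ^ 2 - F X| ≤ δ) ∧
      (∀ (X : BConf d q → BConf d q → ℝ) (η : ℝ), 0 < η → η ≤ 1 →
        ∃ (A : Tensor d (bond d q (η / (2 * (entrySum (hermOf X) + 1))))) (L₁ : ℕ),
        ∀ (L : ℕ) [NeZero L], L₁ ≤ L → nrm (pepsX A L) ≠ 0 ∧
          en (hermOf X) L (pepsX A L) ≤ (F X + η) * (L : ℝ) ^ 2 * nrm (pepsX A L)) ∧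
      (∀ᵐ X : BConf d q → BConf d q → ℝ, DifferentiableAt ℝ F X) ∧
      ∀ X : BConf d q → BConf d q → ℝ, DifferentiableAt ℝ F X → ∀ ε : ℝ, 0 < ε →
        ∃ η : ℝ, 0 < η ∧ ∃ L₁ : ℕ, ∀ (L L' : ℕ) [NeZero L] [NeZero L'], L₁ ≤ L → L₁ ≤ L' →
          ∀ Ψ' : Conf d L' → ℂ, IsGround (hermOf X) L' Ψ' → TransInv Ψ' →
          ∀ R, InBox q R →
          (∀ Ψ : Conf d L → ℂ, nrm Ψ = 1 → TransInv Ψ →
            en (hermOf X) L Ψ ≤ (F X + η) * (L : ℝ) ^ 2 → Close R Ψ' Ψ ε) ∧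
          (∀ (D : ℕ) (A : Tensor d D), nrm (pepsX A L) ≠ 0 →
            en (hermOf X) L (pepsX A L) ≤ (F X + η) * (L : ℝ) ^ 2 * nrm (pepsX A L) →
            Close R Ψ' (pepsX A L) ε) := by
  have hA := Pool.Agent.Y331.PE.t_EnergyA
  have hB := Pool.Agent.Y675.PE.energyB
  have hC := Pool.Agent.Y236.PE.energyC
  have hE := Pool.Agent.Y932.PE.groundExists
  have hG := Pool.Agent.Y931.PE.grad
  have hRI := Pool.Agent.Y759.PE.regionIn
  have hPTI := Pool.Agent.Y328.PE.pepsMain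
  have hbox : ∀ {d : ℕ}, 2 ≤ d → ∀ {r : ℕ}, 0 < r → ∀ {ε : ℝ}, 0 < ε → ε ≤ 1 →
    ∃ (L₀ K : ℕ) (A : Fin K → Tensor d (bond d r ε)),
      ∀ (L : ℕ) [NeZero L], L₀ ≤ L → ∀ Ψ : Conf d L → ℂ, nrm Ψ = 1 →
      (∀ (v : Site L) (B : BConf d r → BConf d r → ℂ), expec Ψ v B = expec Ψ 0 B) →
      ∃ k, ∀ (L' : ℕ) [NeZero L'], L₀ ≤ L' → 0 < nrm (pepsX (A k) L') ∧
        ∀ (u : Site L) (v : Site L') (B : BConf d r → BConf d r → ℂ), Contr B →
          ‖expec (pepsX (A k) L') v B / (nrm (pepsX (A k) L') : ℂ) - expec Ψ u B‖ ≤ ε :=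
    fun {_} hd {_} hr {_} hε hε1 => universal_box Pool.Agent.Y978.PE.collapse
      Pool.Agent.Y562.PE.orth Pool.Agent.Y297.PE.factor Pool.Agent.Y65.PE.weights
      Pool.Agent.Y328.PE.shiftMain Pool.Agent.Y794.PE.exist Pool.Agent.Y794.PE.nonzero
      Pool.Agent.Y65.PE.bound Pool.Agent.Y65.PE.purify Pool.Agent.Y585.PE.net
      Pool.Agent.Y328.PE.pepsMain hd hr hε hε1
  set C : NNReal := ⟨4 * (Fintype.card (BConf d q) : ℝ) ^ 2, by positivity⟩ with hCdef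
  have hcau : ∀ (X : BConf d q → BConf d q → ℝ) (δ : ℝ), 0 < δ → ∃ L₀ : ℕ, ∀ L L' : ℕ, L₀ ≤ L →
      L₀ ≤ L' → gd L' X ≤ gd L X + δ := fun X =>
    gd_cauchy hA hE hPTI hbox contr_inv hd hq X
  have hlip : ∀ (L : ℕ), L ≠ 0 → q ≤ L → ∀ X Z : BConf d q → BConf d q → ℝ,
      gd L Z ≤ gd L X + C * ‖Z - X‖ := by
    intro L hL0 hqL X Z
    have hi : NeZero L := ⟨hL0⟩
    exact gd_lip hA hB hC hE (by omega) hqL X Z
  obtain ⟨F, hF, hFL⟩ := gd_limit C hcau hlip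
  have hFlim : ∀ (X : BConf d q → BConf d q → ℝ) (δ : ℝ), 0 < δ → ∃ L₁ : ℕ,
      ∀ (L : ℕ) [NeZero L], L₁ ≤ L → ∀ Ψ : Conf d L → ℂ, IsGround (hermOf X) L Ψ →
          |en (hermOf X) L Ψ / (L : ℝ) ^ 2 - F X| ≤ δ := by
    intro X δ hδ
    obtain ⟨N, hN⟩ := Metric.tendsto_atTop.1 (hF X) δ hδ
    refine ⟨N, fun L _ hL Ψ hΨ => ?_⟩
    have h1 := hN L hL
    rw [Real.dist_eq, gd_eq X Ψ hΨ] at h1
    exact h1.le
  refine ⟨F, hFlim, ?_, ?_, ?_⟩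
  · intro X η hη hη1
    set h := hermOf X with hh
    set c : ℝ := entrySum h + 1 with hc
    have hc0 : 0 ≤ entrySum h :=
      Finset.sum_nonneg fun _ _ => Finset.sum_nonneg fun _ _ => norm_nonneg _
    have hc1 : 0 < c := by linarith
    have hε0 : 0 < η / (2 * c) := by positivity
    have hε1 : η / (2 * c) ≤ 1 := by
      rw [div_le_iff₀ (by positivity)]; nlinarith
    obtain ⟨L₀, K, A, hA'⟩ := hbox hd hq hε0 hε1
    obtain ⟨N₁, hN₁⟩ := hFlim X (η / 2) (by linarith)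
    set N : ℕ := max (max L₀ q) N₁ + 1 with hN
    have hi : NeZero N := ⟨by omega⟩
    obtain ⟨Ψ, hΨ, hTI⟩ := hE d q N (by omega) (by omega) X
    have hTIe := transInv_expec Ψ hΨ.1 hTI
    obtain ⟨k, hk⟩ := hA' N (by omega) Ψ hΨ.1 (hTIe q)
    refine ⟨A k, L₀, ?_⟩
    intro L _ hL
    obtain ⟨hn, hcl⟩ := hk L hL
    refine ⟨hn.ne', ?_⟩
    have hNp : (0 : ℝ) < (N : ℝ) ^ 2 := by positivity
    have e1 := hN₁ N (by omega) Ψ hΨ
    rw [hA.1 d q N h Ψ (fun v => hTIe q v h), mul_div_cancel_left₀ _ hNp.ne'] at e1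
    have e2 := (abs_le.1 e1).2
    have h2 := hcl 0 0 _ (contr_inv d q h c hc1 (by linarith))
    have hlin : ∀ {M : ℕ} [NeZero M] (Q : Conf d M → ℂ),
        expec Q 0 (fun σ τ => ((c⁻¹ : ℝ) : ℂ) * h σ τ) = ((c⁻¹ : ℝ) : ℂ) * expec Q 0 h := by
      intro M _ Q
      unfold expec
      rw [Finset.mul_sum]
      refine Finset.sum_congr rfl fun s _ => ?_
      rw [Finset.mul_sum]
      refine Finset.sum_congr rfl fun τ _ => ?_
      ring
    rw [hlin, hlin] at h2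
    have e3 : ((c⁻¹ : ℝ) : ℂ) * expec (pepsX (A k) L) 0 h / (nrm (pepsX (A k) L) : ℂ) -
        ((c⁻¹ : ℝ) : ℂ) * expec Ψ 0 h = ((c⁻¹ : ℝ) : ℂ) *
        (expec (pepsX (A k) L) 0 h / (nrm (pepsX (A k) L) : ℂ) - expec Ψ 0 h) := by ring
    rw [e3, norm_mul, Complex.norm_real, Real.norm_eq_abs, abs_of_pos (inv_pos.2 hc1),
      inv_mul_le_iff₀ hc1] at h2
    have e4 : c * (η / (2 * c)) = η / 2 := by field_simp
    rw [e4] at h2
    have e5 := (Complex.re_le_norm _).trans h2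
    rw [Complex.sub_re, Complex.div_ofReal_re] at e5
    rw [hA.1 d q L h (pepsX (A k) L) (fun v => hPTI d L _ (A k) q v h)]
    have e6 : (expec (pepsX (A k) L) 0 h).re / nrm (pepsX (A k) L) ≤ F X + η := by linarith
    rw [div_le_iff₀ hn] at e6
    have hLp : (0 : ℝ) ≤ (L : ℝ) ^ 2 := by positivity
    nlinarith [mul_le_mul_of_nonneg_left e6 hLp]
  · filter_upwards [Pool.Agent.Y273.PE.t_rad d q F C hFL] with X hX
    obtain ⟨F', hF'⟩ := hX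
    exact hF'.differentiableAt
  · intro X hX ε hε
    obtain ⟨η, hη, L₁, hL₁⟩ := conv_var hA hB hC hE hG hd F hF X (fderiv ℝ F X)
      hX.hasFDerivAt ε hε
    obtain ⟨N₁, hN₁⟩ := hFlim X η hη
    refine ⟨η, hη, max (max L₁ q) N₁, ?_⟩
    intro L L' _ _ hL hL' Ψ' hΨ' hTI' R hR
    have hTIe' := transInv_expec Ψ' hΨ'.1 hTI'
    have hLp' : (0 : ℝ) < (L' : ℝ) ^ 2 := by
      have : L' ≠ 0 := NeZero.ne L'
      positivity
    have hen' : en (hermOf X) L' Ψ' ≤ (F X + η) * (L' : ℝ) ^ 2 := by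
      have h1 := (abs_le.1 (hN₁ L' (by omega) Ψ' hΨ')).2
      rw [← div_le_iff₀ hLp']
      linarith
    have main : ∀ Q : Conf d L → ℂ, nrm Q = 1 →
        (∀ (v : Site L) (B : BConf d q → BConf d q → ℂ), expec Q v B = expec Q 0 B) →
        en (hermOf X) L Q ≤ (F X + η) * (L : ℝ) ^ 2 →
        ∀ B : BConf d q → BConf d q → ℂ, Contr B → ‖expec Ψ' 0 B - expec Q 0 B‖ ≤ ε :=
      fun Q hQ hQT hQe B hBc => hL₁ L' L (by omega) (by omega) Ψ' Q hΨ'.1 hQ (hTIe' q) hQT hen'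
        hQe B hBc
    refine ⟨?_, ?_⟩
    · intro Ψ hn hTI hen u v B hBc
      obtain ⟨B', hB', hBB⟩ := hRI d q R hR B hBc
      rw [hBB L' (by omega), hBB L (by omega), hTIe', transInv_expec Ψ hn hTI, hΨ'.1, hn]
      simpa using main Ψ hn (transInv_expec Ψ hn hTI q) hen B' hB'
    · intro D A hA0 hen u v B hBc
      obtain ⟨B', hB', hBB⟩ := hRI d q R hR B hBc
      have hP0 : 0 < nrm (pepsX A L) := lt_of_le_of_ne (nrm_nonneg _) (Ne.symm hA0)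
      set c : ℂ := (((Real.sqrt (nrm (pepsX A L)))⁻¹ : ℝ) : ℂ) with hc
      have hcn : ‖c‖ ^ 2 = (nrm (pepsX A L))⁻¹ := by
        rw [hc, Complex.norm_real, Real.norm_eq_abs, sq_abs, inv_pow, Real.sq_sqrt hP0.le]
      have hexp : ∀ (v : Site L) (B : BConf d q → BConf d q → ℂ),
          expec (fun s => c * pepsX A L s) v B =
            expec (pepsX A L) v B / (nrm (pepsX A L) : ℂ) := by
        intro v B
        have h1 : expec (fun s => c * pepsX A L s) v B =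
            ((‖c‖ ^ 2 : ℝ) : ℂ) * expec (pepsX A L) v B := by
          have hcc : conj c * c = ((‖c‖ ^ 2 : ℝ) : ℂ) := by
            rw [mul_comm, Complex.mul_conj, Complex.normSq_eq_norm_sq]
          unfold expec
          rw [Finset.mul_sum]
          refine Finset.sum_congr rfl fun s _ => ?_
          rw [Finset.mul_sum]
          refine Finset.sum_congr rfl fun τ _ => ?_
          rw [map_mul, ← hcc]
          ring
        rw [h1, hcn]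
        push_cast
        rw [div_eq_inv_mul]
      have hQ1 : nrm (fun s => c * pepsX A L s) = 1 := by
        rw [nrm_smul, hcn, inv_mul_cancel₀ hA0]
      have hQT : ∀ (v : Site L) (B : BConf d q → BConf d q → ℂ),
          expec (fun s => c * pepsX A L s) v B = expec (fun s => c * pepsX A L s) 0 B := by
        intro v B
        rw [hexp, hexp, hPTI d L _ A q v B]
      have hQe : en (hermOf X) L (fun s => c * pepsX A L s) ≤ (F X + η) * (L : ℝ) ^ 2 := by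
        rw [en_smul, hcn, inv_mul_le_iff₀ hP0]
        linarith
      have h5 := main _ hQ1 hQT hQe B' hB'
      rw [hexp] at h5
      rw [hBB L' (by omega), hBB L (by omega), hTIe', hΨ'.1, hPTI d L _ A q v B']
      simpa using h5

end Pool.Agent.Y738.PE
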