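import Mathlib

/-! # Definitions for the local approximation of translation invariant states on the torus by
translation invariant PEPS -/

open scoped BigOperators ComplexConjugate Classical

noncomputable section

namespace Pool.Agent.Y738.PE

/-- Sites of the `L × L` torus. -/
abbrev Site (L : ℕ) := ZMod L × ZMod L

/-- Configurations (computational basis states) of the torus with local dimension `d`. -/
abbrev Conf (d L : ℕ) := Site L → Fin d

/-- Configurations of an `r × r` box. -/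
abbrev BConf (d r : ℕ) := Fin r × Fin r → Fin d

/-- Squared norm of a vector. -/
def nrm {S : Type} [Fintype S] (f : S → ℂ) : ℝ := ∑ s, ‖f s‖ ^ 2

/-- `B` is a matrix of operator norm at most `1`. -/
def Contr {S : Type} [Fintype S] (B : S → S → ℂ) : Prop :=
  ∀ f : S → ℂ, nrm (fun σ => ∑ τ, B σ τ * f τ) ≤ nrm f

/-- The restriction of `s` to the `r × r` box with lower left corner `v`. -/
def box {d L : ℕ} (r : ℕ) (s : Conf d L) (v : Site L) : BConf d r :=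
  fun p => s (v.1 + ((p.1 : ℕ) : ZMod L), v.2 + ((p.2 : ℕ) : ZMod L))

/-- The configuration `s` with its content on the `r × r` box at `v` replaced by `τ`. -/
def put {d L r : ℕ} (s : Conf d L) (v : Site L) (τ : BConf d r) : Conf d L :=
  fun w => if h : (w.1 - v.1).val < r ∧ (w.2 - v.2).val < r then
    τ (⟨(w.1 - v.1).val, h.1⟩, ⟨(w.2 - v.2).val, h.2⟩) else s w

/-- `⟨Ψ, B_v Ψ⟩`, where `B_v` is the operator `B` acting on the `r × r` box at `v`. -/
def expec {d L r : ℕ} [NeZero L] (Ψ : Conf d L → ℂ) (v : Site L)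
    (B : BConf d r → BConf d r → ℂ) : ℂ :=
  ∑ s : Conf d L, ∑ τ : BConf d r, conj (Ψ s) * B (box r s v) τ * Ψ (put s v τ)

/-- The PEPS vector of a tensor with index set `X` on the `L × L` torus. The arguments of the
tensor are: physical index, left, right, down, up. -/
def pepsX {d : ℕ} {X : Type} [Fintype X] (A : Fin d → X → X → X → X → ℂ)
    (L : ℕ) [NeZero L] : Conf d L → ℂ :=
  fun s => ∑ hor : Site L → X, ∑ ver : Site L → X,
    ∏ v : Site L, A (s v) (hor (v.1 - 1, v.2)) (hor v) (ver (v.1, v.2 - 1)) (ver v)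

/-- The sub-box of side `r` at position `p` of an `m × m` block configuration. -/
def subBox {d m r : ℕ} (σ : BConf d m) (p : ℕ × ℕ) (h : p.1 + r ≤ m ∧ p.2 + r ≤ m) : BConf d r :=
  fun q => σ (⟨p.1 + q.1, by have := q.1.2; omega⟩, ⟨p.2 + q.2, by have := q.2.2; omega⟩)

/-- The block configuration `σ` with the content of its sub-box of side `r` at position `p`
replaced by `τ`. -/
def subPut {d m r : ℕ} (σ : BConf d m) (p : ℕ × ℕ) (τ : BConf d r) : BConf d m :=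
  fun q => if h : (p.1 ≤ (q.1 : ℕ) ∧ (q.1 : ℕ) < p.1 + r) ∧ (p.2 ≤ (q.2 : ℕ) ∧ (q.2 : ℕ) < p.2 + r)
    then τ (⟨q.1 - p.1, by omega⟩, ⟨q.2 - p.2, by omega⟩) else σ q

/-- `⟨Φ, B_p Φ⟩` for a block vector `Φ`, `B_p` being `B` acting on the sub-box at position `p`. -/
def expecBlock {d m r : ℕ} (Φ : BConf d m → ℂ) (p : ℕ × ℕ) (h : p.1 + r ≤ m ∧ p.2 + r ≤ m)
    (B : BConf d r → BConf d r → ℂ) : ℂ :=
  ∑ σ : BConf d m, ∑ τ : BConf d r, conj (Φ σ) * B (subBox σ p h) τ * Φ (subPut σ p τ)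

/-! ## Tilings -/

/-- Labels: `(e, i)` is the position `i` in an interval of length `N + e`, `e ∈ {0, 1}`. -/
abbrev Lab (N : ℕ) := Fin 2 × Fin (N + 1)

/-- The label is a position of an interval of length `N + e`. -/
def okL {N : ℕ} (a : Lab N) : Prop := (a.2 : ℕ) < N + (a.1 : ℕ)

/-- `b` can follow `a`. -/
def step {N : ℕ} (a b : Lab N) : Prop :=
  (b.1 = a.1 ∧ (b.2 : ℕ) = (a.2 : ℕ) + 1) ∨ ((a.2 : ℕ) + 1 = N + (a.1 : ℕ) ∧ (b.2 : ℕ) = 0)

/-- A cyclic tiling of `ZMod L` by intervals of lengths `N` and `N + 1`. -/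
def Cyc {N L : ℕ} (α : ZMod L → Lab N) : Prop :=
  ∀ x, okL (α x) ∧ step (α (x - 1)) (α x)

/-- A pair of labellings, of the columns and of the rows. -/
abbrev Til (N L : ℕ) := (ZMod L → Lab N) × (ZMod L → Lab N)

/-- Both labellings are cyclic tilings. -/
def Valid {N L : ℕ} (θ : Til N L) : Prop := Cyc θ.1 ∧ Cyc θ.2

/-- A site with column position `i` and row position `j` belongs to a sub-block. -/
def Blk (m M i j : ℕ) : Prop :=
  1 ≤ i ∧ i ≤ m * M ∧ 1 ≤ j ∧ j ≤ m * M ∧ (i - 1) / m ≠ (j - 1) / m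

/-- The factor at the site `v`: frame sites carry `1`, the corner of a sub-block carries the
amplitude of the block vector, the other fixed sites carry `0`. -/
def fac {d L N : ℕ} (m M : ℕ) (Φ : BConf d m → ℂ) (a b : Lab N) (s : Conf d L) (v : Site L) : ℂ :=
  if (a.2 : ℕ) = 0 ∨ (b.2 : ℕ) = 0 then (if (s v : ℕ) = 1 then 1 else 0)
  else if Blk m M a.2 b.2 then
    (if ((a.2 : ℕ) - 1) % m = 0 ∧ ((b.2 : ℕ) - 1) % m = 0 then Φ (box m s v) else 1)
  else (if (s v : ℕ) = 0 then 1 else 0)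

/-- The vector of a tiling. -/
def glob {d L : ℕ} [NeZero L] (m M : ℕ) (Φ : BConf d m → ℂ) (θ : Til (m * M + 1) L)
    (s : Conf d L) : ℂ :=
  ∏ v : Site L, fac m M Φ (θ.1 v.1) (θ.2 v.2) s v

/-- The superposition of all tilings. -/
def tot {d : ℕ} (m M : ℕ) (Φ : BConf d m → ℂ) (L : ℕ) [NeZero L] (s : Conf d L) : ℂ :=
  ∑ θ ∈ (Finset.univ : Finset (Til (m * M + 1) L)).filter Valid, glob m M Φ θ s

/-- The index set of the bonds: column label, row label, block content. -/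
abbrev XT (d m M : ℕ) := Lab (m * M + 1) × Lab (m * M + 1) × BConf d m

/-- The condition at a site for the tensor to be nonzero: physical value `s`, left neighbour `l`,
own state `c`, lower neighbour `dn`. -/
def Cond {d : ℕ} (m M : ℕ) (s : Fin d) (l c dn : XT d m M) : Prop :=
  okL c.1 ∧ okL c.2.1 ∧ step l.1 c.1 ∧ l.2.1 = c.2.1 ∧ step dn.2.1 c.2.1 ∧ dn.1 = c.1 ∧
  (Blk m M c.1.2 c.2.1.2 → ((c.1.2 : ℕ) - 1) % m ≠ 0 → l.2.2 = c.2.2) ∧
  (Blk m M c.1.2 c.2.1.2 → ((c.2.1.2 : ℕ) - 1) % m ≠ 0 → dn.2.2 = c.2.2) ∧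
  (Blk m M c.1.2 c.2.1.2 → ∀ p : Fin m × Fin m, (p.1 : ℕ) = ((c.1.2 : ℕ) - 1) % m →
    (p.2 : ℕ) = ((c.2.1.2 : ℕ) - 1) % m → s = c.2.2 p) ∧
  (¬ Blk m M c.1.2 c.2.1.2 → c.2.2 = (fun _ => s) ∧
    (((c.1.2 : ℕ) = 0 ∨ (c.2.1.2 : ℕ) = 0) → (s : ℕ) = 1) ∧
    (¬ ((c.1.2 : ℕ) = 0 ∨ (c.2.1.2 : ℕ) = 0) → (s : ℕ) = 0))

/-- The tensor. -/
def tens {d : ℕ} (m M : ℕ) (Φ : BConf d m → ℂ) (s : Fin d) (l c dn up : XT d m M) : ℂ :=
  if up = c ∧ Cond m M s l c dn then
    (if Blk m M c.1.2 c.2.1.2 ∧ ((c.1.2 : ℕ) - 1) % m = 0 ∧ ((c.2.1.2 : ℕ) - 1) % m = 0 then Φ c.2.2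
      else 1)
  else 0

end Pool.Agent.Y738.PE
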