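import Pool.Agent.Y738.PE.Main

/-! # The universal finite family of tensors -/

open scoped BigOperators ComplexConjugate Classical

noncomputable section

namespace Pool.Agent.Y738.PE

/-- A PEPS tensor of local dimension `d` and bond dimension `D`. -/
abbrev Tensor (d D : ℕ) := Fin d → Fin D → Fin D → Fin D → Fin D → ℂ

/-- The bond dimension. -/
def bond (d r : ℕ) (ε : ℝ) : ℕ :=
  (4 * (⌈12 * (r : ℝ) / ε⌉₊ * ⌈24 / ε⌉₊ + 1)) ^ 2 * d ^ (4 * ⌈12 * (r : ℝ) / ε⌉₊ ^ 2)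

/-- The vector is translation invariant up to scalars. -/
def TransInv {d L : ℕ} (Ψ : Conf d L → ℂ) : Prop :=
  ∀ a : Site L, ∃ c : ℂ, ∀ s : Conf d L, Ψ (fun w => s (w + a)) = c * Ψ s

/-- translation of configurations as a permutation -/
def shiftE {d L : ℕ} (a : Site L) : Conf d L ≃ Conf d L where
  toFun s := fun w => s (w + a)
  invFun s := fun w => s (w - a)
  left_inv s := by funext w; simp
  right_inv s := by funext w; simp

theorem nrm_shift {d L : ℕ} [NeZero L] (Ψ : Conf d L → ℂ) (a : Site L) :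
    nrm (fun s : Conf d L => Ψ (fun w => s (w + a))) = nrm Ψ :=
  Equiv.sum_comp (shiftE a) (fun s => ‖Ψ s‖ ^ 2)

theorem box_shift {d L r : ℕ} (s : Conf d L) (v : Site L) :
    box r (fun w => s (w + v)) 0 = box r s v := by
  funext p
  unfold box
  simp only [Prod.fst_zero, Prod.snd_zero, zero_add]
  congr 1
  refine Prod.ext ?_ ?_
  · show ((p.1 : ℕ) : ZMod L) + v.1 = v.1 + _
    ring
  · show ((p.2 : ℕ) : ZMod L) + v.2 = v.2 + _
    ring

theorem put_shift {d L r : ℕ} (s : Conf d L) (v : Site L) (τ : BConf d r) :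
    put (fun w => s (w + v)) 0 τ = fun w => (put s v τ) (w + v) := by
  funext w
  unfold put
  simp only [Prod.fst_add, Prod.snd_add, add_sub_cancel_right, Prod.fst_zero, Prod.snd_zero,
    sub_zero]

theorem transInv_expec {d L : ℕ} [NeZero L] (Ψ : Conf d L → ℂ) (hΨ : nrm Ψ = 1)
    (h : TransInv Ψ) (r : ℕ) (v : Site L) (B : BConf d r → BConf d r → ℂ) :
    expec Ψ v B = expec Ψ 0 B := by
  obtain ⟨c, hc⟩ := h v
  have hc1 : ‖c‖ ^ 2 = 1 := by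
    have h1 := nrm_shift Ψ v
    have h2 : nrm (fun s : Conf d L => Ψ (fun w => s (w + v))) = ‖c‖ ^ 2 * nrm Ψ := by
      unfold nrm
      rw [Finset.mul_sum]
      refine Finset.sum_congr rfl fun s _ => ?_
      show ‖Ψ (fun w => s (w + v))‖ ^ 2 = _
      rw [hc s, norm_mul, mul_pow]
    rw [h2, hΨ, mul_one] at h1
    exact h1
  have hcc : conj c * c = 1 := by
    rw [mul_comm, Complex.mul_conj, Complex.normSq_eq_norm_sq, hc1]
    simp
  unfold expec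
  rw [← Equiv.sum_comp (shiftE v)
    (fun s : Conf d L => ∑ τ : BConf d r, conj (Ψ s) * B (box r s 0) τ * Ψ (put s 0 τ))]
  refine Finset.sum_congr rfl fun s _ => Finset.sum_congr rfl fun τ _ => ?_
  have e1 : (shiftE v s : Conf d L) = fun w => s (w + v) := rfl
  rw [e1, box_shift, put_shift, hc, hc, map_mul]
  calc conj (Ψ s) * B (box r s v) τ * Ψ (put s v τ)
      = (conj c * c) * (conj (Ψ s) * B (box r s v) τ * Ψ (put s v τ)) := by rw [hcc, one_mul]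
    _ = _ := by ring

theorem pepsX_equiv {d : ℕ} {X Y : Type} [Fintype X] [Fintype Y] (e : X ≃ Y)
    (A : Fin d → Y → Y → Y → Y → ℂ) (L : ℕ) [NeZero L] :
    pepsX (fun s a b c d => A s (e a) (e b) (e c) (e d)) L = pepsX A L := by
  funext s
  unfold pepsX
  refine Fintype.sum_equiv (Equiv.arrowCongr (Equiv.refl (Site L)) e) _ _ fun hor => ?_
  refine Fintype.sum_equiv (Equiv.arrowCongr (Equiv.refl (Site L)) e) _ _ fun ver => ?_
  rfl

theorem card_XT (d m M : ℕ) :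
    Fintype.card (XT d m M) = (2 * (m * M + 2)) ^ 2 * d ^ (m * m) := by
  simp only [XT, Lab, BConf, Fintype.card_prod, Fintype.card_fin, Fintype.card_pi,
    Finset.prod_const, Finset.card_univ]
  ring

theorem card_XT_bond (d r : ℕ) (ε : ℝ) :
    Fintype.card (XT d (2 * ⌈12 * (r : ℝ) / ε⌉₊) ⌈24 / ε⌉₊) = bond d r ε := by
  rw [card_XT, bond]
  congr 1
  · ring
  · congr 1; ring

/-- good positions -/
def PosS (r n : ℕ) : Finset (ℕ × ℕ) :=
  ((Finset.range (n - r + 1)) ∪ (Finset.range (n - r + 1)).image (fun i => n + i)) ×ˢ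
    Finset.range (2 * n - r + 1)

theorem mem_PosS {r n : ℕ} (_hr : 0 < r) (hn : r ≤ n) {p : ℕ × ℕ} (hp : p ∈ PosS r n) :
    (p.1 + r ≤ 2 * n ∧ p.2 + r ≤ 2 * n) ∧ (p.1 + r ≤ n ∨ n ≤ p.1) := by
  unfold PosS at hp
  rw [Finset.mem_product, Finset.mem_union, Finset.mem_range, Finset.mem_image,
    Finset.mem_range] at hp
  obtain ⟨h1, h2⟩ := hp
  rcases h1 with h1 | ⟨i, hi, hi2⟩
  · refine ⟨⟨by omega, by omega⟩, Or.inl (by omega)⟩
  · rw [Finset.mem_range] at hi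
    refine ⟨⟨by omega, by omega⟩, Or.inr (by omega)⟩

theorem card_PosS {r n : ℕ} (hr : 0 < r) (hn : r ≤ n) :
    (PosS r n).card = (2 * (n - r + 1)) * (2 * n - r + 1) := by
  unfold PosS
  rw [Finset.card_product, Finset.card_union_of_disjoint, Finset.card_image_of_injective,
    Finset.card_range, Finset.card_range]
  · ring
  · intro a b h; simpa using h
  · rw [Finset.disjoint_left]
    intro a ha hb
    rw [Finset.mem_range] at ha
    rw [Finset.mem_image] at hb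
    obtain ⟨i, hi, hi2⟩ := hb
    omega

theorem param_bound {r : ℕ} {ε : ℝ} (hr : 0 < r) (hε : 0 < ε) (hε1 : ε ≤ 1) (n M : ℕ)
    (hn : 12 * (r : ℝ) / ε ≤ n) (hM : 24 / ε ≤ M) :
    r ≤ n ∧ 0 < M ∧
    2 * (1 - ((M * (M - 1) * (PosS r n).card : ℕ) : ℝ) / (((2 * n * M + 2) ^ 2 : ℕ) : ℝ)) ≤
      ε / 2 := by
  have hr1 : (1 : ℝ) ≤ r := by exact_mod_cast hr
  have hn' : 12 * (r : ℝ) ≤ ε * n := by
    rw [div_le_iff₀ hε] at hn; linarith
  have hM' : 24 ≤ ε * M := by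
    rw [div_le_iff₀ hε] at hM; linarith
  have hn0 : (0 : ℝ) ≤ n := Nat.cast_nonneg n
  have hM0 : (0 : ℝ) ≤ M := Nat.cast_nonneg M
  have hnr : (r : ℝ) ≤ n := by nlinarith
  have hrn : r ≤ n := by exact_mod_cast hnr
  have hM24 : (24 : ℝ) ≤ M := by nlinarith
  have hMn : 24 ≤ M := by exact_mod_cast hM24
  refine ⟨hrn, by omega, ?_⟩
  have hcard : 2 * ((n : ℝ) - r) * (2 * n - r) ≤ ((PosS r n).card : ℝ) := by
    rw [card_PosS hr hrn]
    have e1 : ((n - r + 1 : ℕ) : ℝ) = (n : ℝ) - r + 1 := by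
      rw [Nat.cast_add, Nat.cast_sub hrn]; simp
    have e2 : ((2 * n - r + 1 : ℕ) : ℝ) = 2 * (n : ℝ) - r + 1 := by
      rw [Nat.cast_add, Nat.cast_sub (by omega)]; simp
    rw [Nat.cast_mul, Nat.cast_mul, e1, e2]
    push_cast
    nlinarith
  have hb : 4 * (n : ℝ) ^ 2 * (1 - ε / 8) ≤ ((PosS r n).card : ℝ) := by
    refine le_trans ?_ hcard
    nlinarith
  have ha : ((M : ℝ) + 1) ^ 2 * (1 - ε / 8) ≤ (M : ℝ) * (M - 1) := by
    nlinarith
  have hK : (0 : ℝ) < (((2 * n * M + 2) ^ 2 : ℕ) : ℝ) := by positivity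
  have hc : (((2 * n * M + 2) ^ 2 : ℕ) : ℝ) ≤ 4 * (n : ℝ) ^ 2 * ((M : ℝ) + 1) ^ 2 := by
    push_cast
    have hn1 : (1 : ℝ) ≤ n := le_trans hr1 hnr
    have : (2 * (n : ℝ) * M + 2) ≤ 2 * n * (M + 1) := by nlinarith
    calc (2 * (n : ℝ) * M + 2) ^ 2 ≤ (2 * n * (M + 1)) ^ 2 := by
          refine pow_le_pow_left₀ (by positivity) this 2
      _ = _ := by ring
  have hprod : 4 * (n : ℝ) ^ 2 * ((M : ℝ) + 1) ^ 2 * (1 - ε / 4) ≤
      ((M * (M - 1) * (PosS r n).card : ℕ) : ℝ) := by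
    have e3 : ((M * (M - 1) * (PosS r n).card : ℕ) : ℝ) =
        (M : ℝ) * (M - 1) * ((PosS r n).card : ℝ) := by
      rw [Nat.cast_mul, Nat.cast_mul, Nat.cast_sub (by omega)]; simp
    rw [e3]
    have h8 : (0 : ℝ) ≤ 1 - ε / 8 := by linarith
    have h9 := mul_le_mul ha hb (by positivity) (by nlinarith)
    refine le_trans ?_ h9
    have h10 : (1 - ε / 4) ≤ (1 - ε / 8) * (1 - ε / 8) := by nlinarith
    have h11 : (0 : ℝ) ≤ 4 * (n : ℝ) ^ 2 * ((M : ℝ) + 1) ^ 2 := by positivity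
    calc 4 * (n : ℝ) ^ 2 * ((M : ℝ) + 1) ^ 2 * (1 - ε / 4)
        ≤ 4 * (n : ℝ) ^ 2 * ((M : ℝ) + 1) ^ 2 * ((1 - ε / 8) * (1 - ε / 8)) :=
          mul_le_mul_of_nonneg_left h10 h11
      _ = _ := by ring
  have hfrac : 1 - ε / 4 ≤
      ((M * (M - 1) * (PosS r n).card : ℕ) : ℝ) / (((2 * n * M + 2) ^ 2 : ℕ) : ℝ) := by
    rw [le_div_iff₀ hK]
    refine le_trans ?_ hprod
    have h12 : (0 : ℝ) ≤ 1 - ε / 4 := by linarith
    calc (1 - ε / 4) * (((2 * n * M + 2) ^ 2 : ℕ) : ℝ)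
        ≤ (1 - ε / 4) * (4 * (n : ℝ) ^ 2 * ((M : ℝ) + 1) ^ 2) :=
          mul_le_mul_of_nonneg_left hc h12
      _ = _ := by ring
  linarith

theorem universal_box (hC : StmCollapse) (hO : StmOrth) (hF : StmFactor) (hW : StmWeights)
    (hS : StmShift) (hE : StmExist) (hN : StmNonzero) (hB : StmBound) (hP : StmPurify)
    (hNet : StmNet) (hTI : StmPepsTI) {d : ℕ} (hd : 2 ≤ d) {r : ℕ} (hr : 0 < r) {ε : ℝ}
    (hε : 0 < ε) (hε1 : ε ≤ 1) :
    ∃ (L₀ K : ℕ) (A : Fin K → Tensor d (bond d r ε)),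
      ∀ (L : ℕ) [NeZero L], L₀ ≤ L → ∀ Ψ : Conf d L → ℂ, nrm Ψ = 1 →
      (∀ (v : Site L) (B : BConf d r → BConf d r → ℂ), expec Ψ v B = expec Ψ 0 B) →
      ∃ k, ∀ (L' : ℕ) [NeZero L'], L₀ ≤ L' → 0 < nrm (pepsX (A k) L') ∧
        ∀ (u : Site L) (v : Site L') (B : BConf d r → BConf d r → ℂ), Contr B →
          ‖expec (pepsX (A k) L') v B / (nrm (pepsX (A k) L') : ℂ) - expec Ψ u B‖ ≤ ε := by
  set n : ℕ := ⌈12 * (r : ℝ) / ε⌉₊ with hn
  set M : ℕ := ⌈24 / ε⌉₊ with hM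
  obtain ⟨hrn, hM0, hpar⟩ := param_bound hr hε hε1 n M (Nat.le_ceil _) (Nat.le_ceil _)
  have hn0 : 0 < n := by omega
  obtain ⟨K, F, hF1, hF2⟩ := hNet d (2 * n) (ε / 2) (by linarith)
  have hcard : Fintype.card (XT d (2 * n) M) = bond d r ε := card_XT_bond d r ε
  let e : Fin (bond d r ε) ≃ XT d (2 * n) M :=
    (finCongr hcard.symm).trans (Fintype.equivFin (XT d (2 * n) M)).symm
  refine ⟨max (r + 2 * (2 * n * M + 1) + 3) ((2 * n * M + 1) ^ 2), K,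
    fun k s a b c t => tens (2 * n) M (F k) s (e a) (e b) (e c) (e t), ?_⟩
  intro L _ hL Ψ hΨ hΨTI
  have h2nL : 2 * n ≤ L := by
    have h1 := le_trans (le_max_left _ _) hL
    have h2 : 2 * n * 1 ≤ 2 * n * M := Nat.mul_le_mul_left _ hM0
    omega
  obtain ⟨Φ, hΦ1, hΦ2⟩ := hP d L n hn0 h2nL Ψ hΨ
  obtain ⟨k, hk⟩ := hF2 Φ hΦ1
  refine ⟨k, ?_⟩
  intro L' _ hL'
  have hL'1 := le_trans (le_max_left _ _) hL'
  have hL'2 := le_trans (le_max_right _ _) hL'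
  have h2nL' : 2 * n ≤ L' := by
    have h2 : 2 * n * 1 ≤ 2 * n * M := Nat.mul_le_mul_left _ hM0
    omega
  have hpeps : pepsX (fun (s : Fin d) (a b c t : Fin (bond d r ε)) =>
      tens (2 * n) M (F k) s (e a) (e b) (e c) (e t)) L' = tot (2 * n) M (F k) L' := by
    rw [pepsX_equiv e (tens (2 * n) M (F k)) L']
    funext s
    exact hC d (2 * n) M L' (by omega) h2nL' (F k) s
  have hPos : ∀ p ∈ PosS r n, p.1 + r ≤ 2 * n ∧ p.2 + r ≤ 2 * n :=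
    fun p hp => (mem_PosS hr hrn hp).1
  have hrL : r ≤ L := by omega
  have key : ∀ B : BConf d r → BConf d r → ℂ, Contr B →
      0 < nrm (tot (2 * n) M (F k) L') ∧
      ‖expec (tot (2 * n) M (F k) L') 0 B / (nrm (tot (2 * n) M (F k) L') : ℂ) -
        expec Ψ 0 B‖ ≤ ε := by
    intro B hBc
    have hb : ‖expec Ψ 0 B‖ ≤ 1 := by rw [← hΨ]; exact hB d L r hrL Ψ 0 B hBc
    have hη : ∀ p (hp : p ∈ PosS r n),
        ‖expecBlock (F k) p (hPos p hp) B - expec Ψ 0 B‖ ≤ ε / 2 := by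
      intro p hp
      have h1 := hΦ2 r p (hPos p hp) hr (mem_PosS hr hrn hp).2 B
      rw [hΨTI] at h1
      rw [← h1]
      exact hk r p (hPos p hp) B hBc
    obtain ⟨h1, h2⟩ := main_G hO hF hW hS hE hN hB hd (by omega : 0 < 2 * n) hM0 hr
      hL'1 hL'2 (F k) (hF1 k) (PosS r n) hPos B hBc (expec Ψ 0 B) hb (ε / 2) (by linarith) hη
    refine ⟨h1, h2.trans ?_⟩
    linarith
  have hzero : Contr (fun _ _ => 0 : BConf d r → BConf d r → ℂ) := by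
    intro f
    have : nrm (fun _ : BConf d r => (∑ τ : BConf d r, (0 : ℂ) * f τ)) = 0 := by
      unfold nrm; simp
    rw [this]
    exact nrm_nonneg f
  refine ⟨?_, ?_⟩
  · rw [hpeps]; exact (key _ hzero).1
  · intro u v B hBc
    have h3 := hTI d L' (Fin (bond d r ε)) (fun (s : Fin d) (a b c t : Fin (bond d r ε)) =>
      tens (2 * n) M (F k) s (e a) (e b) (e c) (e t)) r v B
    rw [h3, hΨTI, hpeps]
    exact (key B hBc).2

/-- The reduction of regions to boxes. -/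
theorem universal_region (hR : StmRegion) (hbox : ∀ {d : ℕ}, 2 ≤ d → ∀ {r : ℕ}, 0 < r →
    ∀ {ε : ℝ}, 0 < ε → ε ≤ 1 →
    ∃ (L₀ K : ℕ) (A : Fin K → Tensor d (bond d r ε)),
      ∀ (L : ℕ) [NeZero L], L₀ ≤ L → ∀ Ψ : Conf d L → ℂ, nrm Ψ = 1 →
      (∀ (v : Site L) (B : BConf d r → BConf d r → ℂ), expec Ψ v B = expec Ψ 0 B) →
      ∃ k, ∀ (L' : ℕ) [NeZero L'], L₀ ≤ L' → 0 < nrm (pepsX (A k) L') ∧
        ∀ (u : Site L) (v : Site L') (B : BConf d r → BConf d r → ℂ), Contr B →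
          ‖expec (pepsX (A k) L') v B / (nrm (pepsX (A k) L') : ℂ) - expec Ψ u B‖ ≤ ε)
    (d : ℕ) (hd : 2 ≤ d) (R : Finset (ℤ × ℤ)) :
    ∃ r : ℕ, 0 < r ∧ ∀ ε : ℝ, 0 < ε → ε ≤ 1 →
      ∃ (L₀ K : ℕ) (A : Fin K → Tensor d (bond d r ε)),
      ∀ (L : ℕ) [NeZero L], L₀ ≤ L → ∀ Ψ : Conf d L → ℂ, nrm Ψ = 1 →
      (∀ (r : ℕ) (v : Site L) (B : BConf d r → BConf d r → ℂ), expec Ψ v B = expec Ψ 0 B) →
      ∃ k, ∀ (L' : ℕ) [NeZero L'], L₀ ≤ L' → 0 < nrm (pepsX (A k) L') ∧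
        ∀ (u : Site L) (v : Site L') (B : (R → Fin d) → (R → Fin d) → ℂ), Contr B →
          ‖expecR R (pepsX (A k) L') v B / (nrm (pepsX (A k) L') : ℂ) - expecR R Ψ u B‖ ≤ ε := by
  obtain ⟨r, a, hr, hB⟩ := hR d R
  refine ⟨r, hr, fun ε hε hε1 => ?_⟩
  obtain ⟨L₀, K, A, hA⟩ := hbox hd hr hε hε1
  refine ⟨max L₀ r, K, A, ?_⟩
  intro L _ hL Ψ hΨ hTI
  obtain ⟨k, hk⟩ := hA L (le_trans (le_max_left _ _) hL) Ψ hΨ (hTI r)
  refine ⟨k, fun L' _ hL' => ?_⟩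
  obtain ⟨h1, h2⟩ := hk L' (le_trans (le_max_left _ _) hL')
  refine ⟨h1, fun u v B hBc => ?_⟩
  obtain ⟨B', hB', hBB⟩ := hB B hBc
  rw [hBB L (le_trans (le_max_right _ _) hL) Ψ u, hBB L' (le_trans (le_max_right _ _) hL') _ v]
  exact h2 _ _ B' hB'

end Pool.Agent.Y738.PE
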