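import Pool.Agent.Y738.PE.Stm3

/-! # Ground energy densities; convergence of marginals for almost every interaction -/

open scoped BigOperators ComplexConjugate Classical Topology

noncomputable section

namespace Pool.Agent.Y738.PE

/-- The ground energy density. -/
def gd {d q : ℕ} (L : ℕ) (X : BConf d q → BConf d q → ℝ) : ℝ :=
  if h : L = 0 then 0 else
    haveI : NeZero L := ⟨h⟩
    sInf ((fun φ : Conf d L → ℂ => en (hermOf X) L φ / (L : ℝ) ^ 2) '' {φ | nrm φ = 1})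

theorem gd_eq {d q L : ℕ} [hL : NeZero L] (X : BConf d q → BConf d q → ℝ) (Ψ : Conf d L → ℂ)
    (hΨ : IsGround (hermOf X) L Ψ) : gd L X = en (hermOf X) L Ψ / (L : ℝ) ^ 2 := by
  have h0 : L ≠ 0 := NeZero.ne L
  have hpos : (0 : ℝ) < (L : ℝ) ^ 2 := by positivity
  unfold gd
  rw [dif_neg h0]
  refine IsLeast.csInf_eq ⟨⟨Ψ, hΨ.1, rfl⟩, ?_⟩
  rintro _ ⟨φ, hφ, rfl⟩
  exact div_le_div_of_nonneg_right (hΨ.2 φ hφ) hpos.le

theorem nrm_smul {S : Type} [Fintype S] (c : ℂ) (f : S → ℂ) :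
    nrm (fun s => c * f s) = ‖c‖ ^ 2 * nrm f := by
  unfold nrm
  rw [Finset.mul_sum]
  refine Finset.sum_congr rfl fun s _ => ?_
  rw [norm_mul, mul_pow]

theorem ham_smul {d q L : ℕ} [NeZero L] (h : BConf d q → BConf d q → ℂ) (c : ℂ)
    (φ : Conf d L → ℂ) (s : Conf d L) : ham h L (fun t => c * φ t) s = c * ham h L φ s := by
  unfold ham
  rw [Finset.mul_sum]
  refine Finset.sum_congr rfl fun v _ => ?_
  rw [Finset.mul_sum]
  refine Finset.sum_congr rfl fun τ _ => ?_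
  ring

theorem en_smul {d q L : ℕ} [NeZero L] (h : BConf d q → BConf d q → ℂ) (c : ℂ)
    (φ : Conf d L → ℂ) : en h L (fun s => c * φ s) = ‖c‖ ^ 2 * en h L φ := by
  have hcc : conj c * c = ((‖c‖ ^ 2 : ℝ) : ℂ) := by
    rw [mul_comm, Complex.mul_conj, Complex.normSq_eq_norm_sq]
  unfold en
  have : (∑ s, conj (c * φ s) * ham h L (fun t => c * φ t) s) =
      ((‖c‖ ^ 2 : ℝ) : ℂ) * ∑ s, conj (φ s) * ham h L φ s := by
    rw [Finset.mul_sum]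
    refine Finset.sum_congr rfl fun s _ => ?_
    rw [ham_smul, map_mul, ← hcc]
    ring
  rw [this, Complex.re_ofReal_mul]

theorem ground_le {d q L : ℕ} [NeZero L] (h : BConf d q → BConf d q → ℂ) (Ψ φ : Conf d L → ℂ)
    (hΨ : IsGround h L Ψ) (hφ : 0 < nrm φ) : en h L Ψ * nrm φ ≤ en h L φ := by
  set c : ℂ := (((Real.sqrt (nrm φ))⁻¹ : ℝ) : ℂ) with hc
  have hs : 0 < Real.sqrt (nrm φ) := Real.sqrt_pos.2 hφ
  have hcn : ‖c‖ ^ 2 = (nrm φ)⁻¹ := by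
    rw [hc, Complex.norm_real, Real.norm_eq_abs, sq_abs, inv_pow, Real.sq_sqrt hφ.le]
  have h1 : nrm (fun s => c * φ s) = 1 := by
    rw [nrm_smul, hcn, inv_mul_cancel₀ hφ.ne']
  have h2 := hΨ.2 _ h1
  rw [en_smul, hcn, inv_mul_eq_div, le_div_iff₀ hφ] at h2
  exact h2

theorem en_split (hB : StmEnergyB) {d q L : ℕ} [NeZero L] (X Z : BConf d q → BConf d q → ℝ)
    (Ψ : Conf d L → ℂ) :
    en (hermOf Z) L Ψ = en (hermOf X) L Ψ + en (hermOf (Z - X)) L Ψ := by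
  have h := hB.2.1 d q L X (Z - X) 1 Ψ
  rw [one_smul, add_sub_cancel, one_mul] at h
  exact h

/-- Supergradient inequality. -/
theorem gd_super (hA : StmEnergyA) (hB : StmEnergyB) (hE : StmGroundExists) {d q L : ℕ}
    [NeZero L] (hd : 0 < d) (hqL : q ≤ L) (X Z : BConf d q → BConf d q → ℝ) (Ψ : Conf d L → ℂ)
    (hΨ : IsGround (hermOf X) L Ψ) (hTI : TransInv Ψ) :
    gd L Z ≤ gd L X + (expec Ψ 0 (hermOf (Z - X))).re := by
  have hL0 : (0 : ℝ) < (L : ℝ) ^ 2 := by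
    have : L ≠ 0 := NeZero.ne L
    positivity
  obtain ⟨Ψ', hΨ', -⟩ := hE d q L hd hqL Z
  rw [gd_eq X Ψ hΨ, gd_eq Z Ψ' hΨ']
  have h1 := hΨ'.2 Ψ hΨ.1
  rw [en_split hB X Z Ψ] at h1
  have h2 := hA.1 d q L (hermOf (Z - X)) Ψ
    (fun v => transInv_expec Ψ hΨ.1 hTI q v _)
  rw [h2] at h1
  rw [div_le_iff₀ hL0]
  calc en (hermOf Z) L Ψ' ≤ en (hermOf X) L Ψ + (L : ℝ) ^ 2 * (expec Ψ 0 (hermOf (Z - X))).re := h1
    _ = (en (hermOf X) L Ψ / (L : ℝ) ^ 2 + (expec Ψ 0 (hermOf (Z - X))).re) * (L : ℝ) ^ 2 := by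
        rw [add_mul, div_mul_cancel₀ _ hL0.ne']
        ring

theorem gd_lip (hA : StmEnergyA) (hB : StmEnergyB) (hC : StmEnergyC) (hE : StmGroundExists)
    {d q L : ℕ} [NeZero L] (hd : 0 < d) (hqL : q ≤ L) (X Z : BConf d q → BConf d q → ℝ) :
    gd L Z ≤ gd L X + 4 * (Fintype.card (BConf d q) : ℝ) ^ 2 * ‖Z - X‖ := by
  obtain ⟨Ψ, hΨ, hTI⟩ := hE d q L hd hqL X
  refine (gd_super hA hB hE hd hqL X Z Ψ hΨ hTI).trans ?_
  have h1 := hA.2.1 d q L hqL (hermOf (Z - X)) Ψ 0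
  rw [hΨ.1, mul_one] at h1
  have h2 := hC.1 d q (Z - X)
  have h3 := Complex.re_le_norm (expec Ψ 0 (hermOf (Z - X)))
  linarith

/-- The ground energy densities form a Cauchy sequence. -/
theorem gd_cauchy (hA : StmEnergyA) (hE : StmGroundExists) (hPTI : StmPepsTI)
    (hbox : ∀ {d : ℕ}, 2 ≤ d → ∀ {r : ℕ}, 0 < r → ∀ {ε : ℝ}, 0 < ε → ε ≤ 1 →
    ∃ (L₀ K : ℕ) (A : Fin K → Tensor d (bond d r ε)),
      ∀ (L : ℕ) [NeZero L], L₀ ≤ L → ∀ Ψ : Conf d L → ℂ, nrm Ψ = 1 →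
      (∀ (v : Site L) (B : BConf d r → BConf d r → ℂ), expec Ψ v B = expec Ψ 0 B) →
      ∃ k, ∀ (L' : ℕ) [NeZero L'], L₀ ≤ L' → 0 < nrm (pepsX (A k) L') ∧
        ∀ (u : Site L) (v : Site L') (B : BConf d r → BConf d r → ℂ), Contr B →
          ‖expec (pepsX (A k) L') v B / (nrm (pepsX (A k) L') : ℂ) - expec Ψ u B‖ ≤ ε)
    (hcon : ∀ (d q : ℕ) (h : BConf d q → BConf d q → ℂ) (c : ℝ), 0 < c → entrySum h ≤ c →
      Contr (fun σ τ => ((c⁻¹ : ℝ) : ℂ) * h σ τ))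
    {d q : ℕ} (hd : 2 ≤ d) (hq : 0 < q) (X : BConf d q → BConf d q → ℝ) :
    ∀ δ : ℝ, 0 < δ → ∃ L₀ : ℕ, ∀ L L' : ℕ, L₀ ≤ L → L₀ ≤ L' → gd L' X ≤ gd L X + δ := by
  intro δ hδ
  set h := hermOf X with hh
  set c : ℝ := entrySum h + 1 with hc
  have hc0 : 0 < c := by
    have : 0 ≤ entrySum h := Finset.sum_nonneg fun _ _ => Finset.sum_nonneg fun _ _ => norm_nonneg _
    linarith
  have hε0 : 0 < min 1 (δ / c) := lt_min one_pos (div_pos hδ hc0)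
  obtain ⟨L₀, K, A, hA'⟩ := hbox hd hq hε0 (min_le_left _ _)
  refine ⟨max (max L₀ q) 1, fun L L' hL hL' => ?_⟩
  have hL1 : L₀ ≤ L := by omega
  have hL2 : q ≤ L := by omega
  have hL3 : L ≠ 0 := by omega
  have hL1' : L₀ ≤ L' := by omega
  have hL2' : q ≤ L' := by omega
  have hL3' : L' ≠ 0 := by omega
  have hi1 : NeZero L := ⟨hL3⟩
  have hi2 : NeZero L' := ⟨hL3'⟩
  obtain ⟨Ψ, hΨ, hTI⟩ := hE d q L (by omega) hL2 X
  obtain ⟨Ψ', hΨ', -⟩ := hE d q L' (by omega) hL2' X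
  have hTIe := transInv_expec Ψ hΨ.1 hTI
  obtain ⟨k, hk⟩ := hA' L hL1 Ψ hΨ.1 (hTIe q)
  obtain ⟨hn, hcl⟩ := hk L' hL1'
  set P := pepsX (A k) L' with hP
  have hPexp : ∀ v : Site L', expec P v h = expec P 0 h := fun v =>
    hPTI d L' _ (A k) q v h
  have h1 := ground_le h Ψ' P hΨ' hn
  rw [hA.1 d q L' h P hPexp] at h1
  have h2 := hcl 0 0 _ (hcon d q h c hc0 (by linarith))
  have hlin : ∀ {N : ℕ} [NeZero N] (Q : Conf d N → ℂ), expec Q 0 (fun σ τ => ((c⁻¹ : ℝ) : ℂ) * h σ τ) =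
      ((c⁻¹ : ℝ) : ℂ) * expec Q 0 h := by
    intro N _ Q
    unfold expec
    rw [Finset.mul_sum]
    refine Finset.sum_congr rfl fun s _ => ?_
    rw [Finset.mul_sum]
    refine Finset.sum_congr rfl fun τ _ => ?_
    ring
  rw [hlin, hlin] at h2
  have h3 : ‖expec P 0 h / (nrm P : ℂ) - expec Ψ 0 h‖ ≤ δ := by
    have e1 : ((c⁻¹ : ℝ) : ℂ) * expec P 0 h / (nrm P : ℂ) - ((c⁻¹ : ℝ) : ℂ) * expec Ψ 0 h =
        ((c⁻¹ : ℝ) : ℂ) * (expec P 0 h / (nrm P : ℂ) - expec Ψ 0 h) := by ring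
    rw [e1, norm_mul, Complex.norm_real, Real.norm_eq_abs, abs_of_pos (inv_pos.2 hc0),
      inv_mul_le_iff₀ hc0] at h2
    refine h2.trans ?_
    have := min_le_right 1 (δ / c)
    calc c * min 1 (δ / c) ≤ c * (δ / c) := mul_le_mul_of_nonneg_left this hc0.le
      _ = δ := by field_simp
  have h4 : (expec P 0 h / (nrm P : ℂ)).re ≤ (expec Ψ 0 h).re + δ := by
    have h5 := Complex.re_le_norm (expec P 0 h / (nrm P : ℂ) - expec Ψ 0 h)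
    rw [Complex.sub_re] at h5
    linarith
  rw [Complex.div_ofReal_re] at h4
  rw [gd_eq X Ψ hΨ, gd_eq X Ψ' hΨ', hA.1 d q L h Ψ (fun v => hTIe q v h)]
  have hLp : (0 : ℝ) < (L : ℝ) ^ 2 := by positivity
  have hLp' : (0 : ℝ) < (L' : ℝ) ^ 2 := by positivity
  rw [mul_div_cancel_left₀ _ hLp.ne', div_le_iff₀ hLp']
  have h6 : en h L' Ψ' ≤ (L' : ℝ) ^ 2 * ((expec P 0 h).re / nrm P) := by
    rw [← mul_div_assoc, le_div_iff₀ hn]
    exact h1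
  calc en h L' Ψ' ≤ (L' : ℝ) ^ 2 * ((expec P 0 h).re / nrm P) := h6
    _ ≤ (L' : ℝ) ^ 2 * ((expec Ψ 0 h).re + δ) := mul_le_mul_of_nonneg_left h4 hLp'.le
    _ = ((expec Ψ 0 h).re + δ) * (L' : ℝ) ^ 2 := by ring

end Pool.Agent.Y738.PE
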