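import Pool.Agent.Y738.PE.Stm

/-! # Second part: from arbitrary PEPS at one size to translation invariant PEPS at all sizes.
Definitions and statements (jobs) -/

open scoped BigOperators ComplexConjugate Classical

noncomputable section

namespace Pool.Agent.Y738.PE

/-- The vector of a (not necessarily translation invariant) PEPS on the `m × m` torus; the tensor
at the site `v` is `C v`. -/
def pepsN {d m : ℕ} [NeZero m] {X : Type} [Fintype X]
    (C : Site m → Fin d → X → X → X → X → ℂ) : Conf d m → ℂ :=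
  fun s => ∑ hor : Site m → X, ∑ ver : Site m → X,
    ∏ v : Site m, C v (s v) (hor (v.1 - 1, v.2)) (hor v) (ver (v.1, v.2 - 1)) (ver v)

/-- A block configuration as a configuration of the `m × m` torus. -/
def glue {d m : ℕ} [NeZero m] (σ : BConf d m) : Conf d m :=
  fun v => σ (⟨v.1.val, ZMod.val_lt v.1⟩, ⟨v.2.val, ZMod.val_lt v.2⟩)

/-- A tensor with bond index set `Lab N × Lab N × Y`: the labels form a tiling, and the weight at
a site depends on its labels and on the `Y`-values of the left neighbour, the site itself and the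
lower neighbour. Arguments: physical, left, right (= own), down, up. -/
def tensG {d N : ℕ} {Y : Type} (w : Lab N → Lab N → Fin d → Y → Y → Y → ℂ)
    (s : Fin d) (l c dn up : Lab N × Lab N × Y) : ℂ :=
  if up = c ∧ okL c.1 ∧ okL c.2.1 ∧ step l.1 c.1 ∧ l.2.1 = c.2.1 ∧ step dn.2.1 c.2.1 ∧ dn.1 = c.1
  then w c.1 c.2.1 s l.2.2 c.2.2 dn.2.2 else 0

/-- G1. Summation over the labels. -/
def StmLabels : Prop := ∀ (d N L : ℕ) [NeZero L] (Y : Type) [Fintype Y]
  (w : Lab N → Lab N → Fin d → Y → Y → Y → ℂ) (s : Conf d L),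
  pepsX (tensG w) L s = ∑ θ ∈ (Finset.univ : Finset (Til N L)).filter Valid,
    ∑ y : Site L → Y, ∏ v : Site L,
      w (θ.1 v.1) (θ.2 v.2) (s v) (y (v.1 - 1, v.2)) (y v) (y (v.1, v.2 - 1))

/-- The weight at a site with labels `a`, `b`: in a sub-block, `u` at the position of the site in
its sub-block; at fixed sites the value of `s` is prescribed and the `Y`-value is `y0`. -/
def wB {d N : ℕ} {Y : Type} (m M : ℕ) (u : Site m → Fin d → Y → Y → Y → ℂ) (y0 : Y)
    (a b : Lab N) (s : Fin d) (yl y yd : Y) : ℂ :=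
  if (a.2 : ℕ) = 0 ∨ (b.2 : ℕ) = 0 then (if (s : ℕ) = 1 ∧ y = y0 then 1 else 0)
  else if Blk m M a.2 b.2 then
    u ((((a.2 : ℕ) - 1 : ℕ) : ZMod m), (((b.2 : ℕ) - 1 : ℕ) : ZMod m)) s yl y yd
  else (if (s : ℕ) = 0 ∧ y = y0 then 1 else 0)

/-- G2. For a given tiling, the sum over the `Y`-values factorizes over the sub-blocks. The weight
`u` must not depend on the left value in the first column and on the lower value in the first
row. -/
def StmInner : Prop := ∀ (d m M L : ℕ) [NeZero L] [NeZero m], m ≤ L → ∀ (Y : Type) [Fintype Y]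
  (u : Site m → Fin d → Y → Y → Y → ℂ) (y0 : Y),
  (∀ (p : Site m) (s : Fin d) (yl yl' y yd : Y), p.1 = 0 → u p s yl y yd = u p s yl' y yd) →
  (∀ (p : Site m) (s : Fin d) (yl y yd yd' : Y), p.2 = 0 → u p s yl y yd = u p s yl y yd') →
  ∀ (θ : Til (m * M + 1) L), Valid θ → ∀ s : Conf d L,
  (∑ y : Site L → Y, ∏ v : Site L,
      wB m M u y0 (θ.1 v.1) (θ.2 v.2) (s v) (y (v.1 - 1, v.2)) (y v) (y (v.1, v.2 - 1))) =
    glob m M (fun σ : BConf d m => ∑ g : Site m → Y, ∏ p : Site m,
      u p (glue σ p) (g (p.1 - 1, p.2)) (g p) (g (p.1, p.2 - 1))) θ s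

/-- The weight of a site of a block, for a PEPS `C` on the `m × m` torus cut open. A value is
`(h, h', v, v')`: `h` the bond to the right, `h'` the bond around the torus in the row, `v` the bond
up, `v'` the bond around the torus in the column. -/
def wI {d m : ℕ} {K : Type} (C : Site m → Fin d → K → K → K → K → ℂ) (p : Site m) (s : Fin d)
    (yl y yd : K × K × K × K) : ℂ :=
  if (p.1 = -1 → y.1 = y.2.1) ∧ (p.2 = -1 → y.2.2.1 = y.2.2.2) ∧
      (p.1 ≠ 0 → yl.2.1 = y.2.1) ∧ (p.2 ≠ 0 → yd.2.2.2 = y.2.2.2) then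
    C p s (if p.1 = 0 then y.2.1 else yl.1) y.1 (if p.2 = 0 then y.2.2.2 else yd.2.2.1) y.2.2.1
  else 0

/-- G3. The sum over the values in a block is the PEPS vector. -/
def StmBlockSum : Prop := ∀ (d m : ℕ) [NeZero m] (K : Type) [Fintype K]
  (C : Site m → Fin d → K → K → K → K → ℂ) (s : Conf d m),
  (∑ g : Site m → K × K × K × K, ∏ p : Site m,
      wI C p (s p) (g (p.1 - 1, p.2)) (g p) (g (p.1, p.2 - 1))) = pepsN C s

/-- G4. Expectations in a torus vector, cut open, at boxes which do not wrap around. -/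
def StmCut : Prop := ∀ (d m r : ℕ) [NeZero m] (Ψ : Conf d m → ℂ) (p : ℕ × ℕ)
  (h : p.1 + r ≤ m ∧ p.2 + r ≤ m) (B : BConf d r → BConf d r → ℂ),
  nrm (fun σ : BConf d m => Ψ (glue σ)) = nrm Ψ ∧
  (0 < r → expecBlock (fun σ : BConf d m => Ψ (glue σ)) p h B =
    expec Ψ (((p.1 : ℕ) : ZMod m), ((p.2 : ℕ) : ZMod m)) B)

end Pool.Agent.Y738.PE
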