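import Pool.Agent.Y738.PE.Univ
import Pool.Agent.Y738.PE.Stm2
import Pool.Agent.Y153.PE2.Labels
import Pool.Agent.Y378.PE.Inner
import Pool.Agent.Y170.PE.BlockSum
import Pool.Agent.Y155.PE.Cut

/-! # From an arbitrary PEPS at one size to a translation invariant PEPS at all sizes -/

open scoped BigOperators ComplexConjugate Classical

noncomputable section

namespace Pool.Agent.Y738.PE

theorem collapse2 {d m M L : ℕ} [NeZero L] [NeZero m] (hmL : m ≤ L) {K : Type} [Fintype K]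
    (C : Site m → Fin d → K → K → K → K → ℂ) (y0 : K × K × K × K) (s : Conf d L) :
    pepsX (tensG (N := m * M + 1) (wB m M (wI C) y0)) L s =
      tot m M (fun σ : BConf d m => pepsN C (glue σ)) L s := by
  have h1 := Pool.Agent.Y153.PE2.Labels.labels d (m * M + 1) L (K × K × K × K)
    (wB m M (wI C) y0) s
  rw [h1]
  unfold tot
  refine Finset.sum_congr rfl fun θ hθ => ?_
  have hv : Valid θ := (Finset.mem_filter.1 hθ).2
  have h2 := Pool.Agent.Y378.PE.inner d m M L hmL (K × K × K × K) (wI C) y0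
    (by
      intro p s yl yl' y yd hp
      unfold wI
      simp only [hp, ne_eq, not_true_eq_false, false_implies, true_and, if_true])
    (by
      intro p s yl y yd yd' hp
      unfold wI
      simp only [hp, ne_eq, not_true_eq_false, false_implies, and_true, if_true])
    θ hv s
  rw [h2]
  have h3 : (fun σ : BConf d m => ∑ g : Site m → K × K × K × K, ∏ p : Site m,
      wI C p (glue σ p) (g (p.1 - 1, p.2)) (g p) (g (p.1, p.2 - 1))) =
      fun σ : BConf d m => pepsN C (glue σ) := by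
    funext σ
    exact Pool.Agent.Y170.PE.blockSum d m K C (glue σ)
  rw [h3]

/-- scaling the tensor at the site `0` -/
def scaleC {d m : ℕ} [NeZero m] {K : Type} (c : ℂ) (C : Site m → Fin d → K → K → K → K → ℂ) :
    Site m → Fin d → K → K → K → K → ℂ :=
  fun v s a b e f => (if v = 0 then c else 1) * C v s a b e f

theorem pepsN_scale {d m : ℕ} [NeZero m] {K : Type} [Fintype K] (c : ℂ)
    (C : Site m → Fin d → K → K → K → K → ℂ) (s : Conf d m) :
    pepsN (scaleC c C) s = c * pepsN C s := by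
  unfold pepsN scaleC
  rw [Finset.mul_sum]
  refine Finset.sum_congr rfl fun hor _ => ?_
  rw [Finset.mul_sum]
  refine Finset.sum_congr rfl fun ver _ => ?_
  rw [Finset.prod_mul_distrib, Finset.prod_ite_eq' Finset.univ (0 : Site m) (fun _ => c)]
  simp

theorem expec_scale {d L r : ℕ} [NeZero L] (c : ℂ) (Ψ : Conf d L → ℂ) (v : Site L)
    (B : BConf d r → BConf d r → ℂ) :
    expec (fun s => c * Ψ s) v B = ((‖c‖ ^ 2 : ℝ) : ℂ) * expec Ψ v B := by
  have hcc : conj c * c = ((‖c‖ ^ 2 : ℝ) : ℂ) := by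
    rw [mul_comm, Complex.mul_conj, Complex.normSq_eq_norm_sq]
  unfold expec
  rw [Finset.mul_sum]
  refine Finset.sum_congr rfl fun s _ => ?_
  rw [Finset.mul_sum]
  refine Finset.sum_congr rfl fun τ _ => ?_
  rw [map_mul, ← hcc]
  ring

theorem nrm_scale {S : Type} [Fintype S] (c : ℂ) (f : S → ℂ) :
    nrm (fun s => c * f s) = ‖c‖ ^ 2 * nrm f := by
  unfold nrm
  rw [Finset.mul_sum]
  refine Finset.sum_congr rfl fun s _ => ?_
  rw [norm_mul, mul_pow]

/-- all positions -/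
def PosF (r m : ℕ) : Finset (ℕ × ℕ) := Finset.range (m - r + 1) ×ˢ Finset.range (m - r + 1)

theorem mem_PosF {r m : ℕ} (hn : r ≤ m) {p : ℕ × ℕ} (hp : p ∈ PosF r m) :
    p.1 + r ≤ m ∧ p.2 + r ≤ m := by
  unfold PosF at hp
  rw [Finset.mem_product, Finset.mem_range, Finset.mem_range] at hp
  omega

/-- The bond dimension of the translation invariant tensor. -/
def bondG (m f : ℕ) (ε : ℝ) : ℕ := (2 * (m * ⌈24 / ε⌉₊ + 2)) ^ 2 * f ^ 4

theorem param_bound2 {r : ℕ} {ε : ℝ} (hr : 0 < r) (hε : 0 < ε) (hε1 : ε ≤ 1) (m M : ℕ)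
    (hm : 16 * (r : ℝ) / ε ≤ m) (hM : 24 / ε ≤ M) :
    r ≤ m ∧ 0 < M ∧
    2 * (1 - ((M * (M - 1) * (PosF r m).card : ℕ) : ℝ) / (((m * M + 2) ^ 2 : ℕ) : ℝ)) ≤
      ε / 2 := by
  have hr1 : (1 : ℝ) ≤ r := by exact_mod_cast hr
  have hm' : 16 * (r : ℝ) ≤ ε * m := by
    rw [div_le_iff₀ hε] at hm; linarith
  have hM' : 24 ≤ ε * M := by
    rw [div_le_iff₀ hε] at hM; linarith
  have hm0 : (0 : ℝ) ≤ m := Nat.cast_nonneg m
  have hM0 : (0 : ℝ) ≤ M := Nat.cast_nonneg M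
  have hmr : (r : ℝ) ≤ m := by nlinarith
  have hrm : r ≤ m := by exact_mod_cast hmr
  have hM24 : (24 : ℝ) ≤ M := by nlinarith
  have hMn : 24 ≤ M := by exact_mod_cast hM24
  have hm16 : (16 : ℝ) ≤ m := by nlinarith
  refine ⟨hrm, by omega, ?_⟩
  have hcard : ((m : ℝ) - r) ^ 2 ≤ ((PosF r m).card : ℝ) := by
    unfold PosF
    rw [Finset.card_product, Finset.card_range, Nat.cast_mul]
    have e1 : ((m - r + 1 : ℕ) : ℝ) = (m : ℝ) - r + 1 := by
      rw [Nat.cast_add, Nat.cast_sub hrm]; simp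
    rw [e1]
    nlinarith
  have hb : (m : ℝ) ^ 2 * (1 - ε / 8) ≤ ((PosF r m).card : ℝ) := by
    refine le_trans ?_ hcard
    nlinarith
  have ha : ((M : ℝ) + 1) ^ 2 * (1 - ε / 8) ≤ (M : ℝ) * (M - 1) := by
    nlinarith
  have hK : (0 : ℝ) < (((m * M + 2) ^ 2 : ℕ) : ℝ) := by positivity
  have hc : (((m * M + 2) ^ 2 : ℕ) : ℝ) ≤ (m : ℝ) ^ 2 * ((M : ℝ) + 1) ^ 2 := by
    push_cast
    have : ((m : ℝ) * M + 2) ≤ m * (M + 1) := by nlinarith
    calc ((m : ℝ) * M + 2) ^ 2 ≤ (m * (M + 1)) ^ 2 := by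
          refine pow_le_pow_left₀ (by positivity) this 2
      _ = _ := by ring
  have hprod : (m : ℝ) ^ 2 * ((M : ℝ) + 1) ^ 2 * (1 - ε / 4) ≤
      ((M * (M - 1) * (PosF r m).card : ℕ) : ℝ) := by
    have e3 : ((M * (M - 1) * (PosF r m).card : ℕ) : ℝ) =
        (M : ℝ) * (M - 1) * ((PosF r m).card : ℝ) := by
      rw [Nat.cast_mul, Nat.cast_mul, Nat.cast_sub (by omega)]; simp
    rw [e3]
    have h8 : (0 : ℝ) ≤ 1 - ε / 8 := by linarith
    have h9 := mul_le_mul ha hb (by positivity) (by nlinarith)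
    refine le_trans ?_ h9
    have h10 : (1 - ε / 4) ≤ (1 - ε / 8) * (1 - ε / 8) := by nlinarith
    have h11 : (0 : ℝ) ≤ (m : ℝ) ^ 2 * ((M : ℝ) + 1) ^ 2 := by positivity
    calc (m : ℝ) ^ 2 * ((M : ℝ) + 1) ^ 2 * (1 - ε / 4)
        ≤ (m : ℝ) ^ 2 * ((M : ℝ) + 1) ^ 2 * ((1 - ε / 8) * (1 - ε / 8)) :=
          mul_le_mul_of_nonneg_left h10 h11
      _ = _ := by ring
  have hfrac : 1 - ε / 4 ≤
      ((M * (M - 1) * (PosF r m).card : ℕ) : ℝ) / (((m * M + 2) ^ 2 : ℕ) : ℝ) := by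
    rw [le_div_iff₀ hK]
    refine le_trans ?_ hprod
    have h12 : (0 : ℝ) ≤ 1 - ε / 4 := by linarith
    calc (1 - ε / 4) * (((m * M + 2) ^ 2 : ℕ) : ℝ)
        ≤ (1 - ε / 4) * ((m : ℝ) ^ 2 * ((M : ℝ) + 1) ^ 2) :=
          mul_le_mul_of_nonneg_left hc h12
      _ = _ := by ring
  linarith

/-- The box version of the passage from an arbitrary PEPS at one size to a translation invariant
PEPS at all sizes. -/
theorem glob_box {d : ℕ} (hd : 2 ≤ d) {r : ℕ} (hr : 0 < r) {ε : ℝ} (hε : 0 < ε) (hε1 : ε ≤ 1)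
    (m : ℕ) [NeZero m] (hm : 16 * (r : ℝ) / ε ≤ m) (f : ℕ) (C : Site m → Tensor d f)
    (hC : nrm (pepsN C) ≠ 0) :
    ∃ A : Tensor d (bondG m f ε), ∀ (L : ℕ) [NeZero L], r + (m * ⌈24 / ε⌉₊ + 3) ^ 2 ≤ L →
      0 < nrm (pepsX A L) ∧ ∀ (B : BConf d r → BConf d r → ℂ), Contr B → ∀ (b : ℂ), ‖b‖ ≤ 1 →
      ∀ η : ℝ, (∀ u : Site m, ‖expec (pepsN C) u B / (nrm (pepsN C) : ℂ) - b‖ ≤ η) →
      ∀ v : Site L, ‖expec (pepsX A L) v B / (nrm (pepsX A L) : ℂ) - b‖ ≤ ε + η := by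
  set M : ℕ := ⌈24 / ε⌉₊ with hM
  obtain ⟨hrm, hM0, hpar⟩ := param_bound2 hr hε hε1 m M hm (Nat.le_ceil _)
  have hm0 : 0 < m := Nat.pos_of_ne_zero (NeZero.ne m)
  have hn0 : 0 < nrm (pepsN C) := lt_of_le_of_ne (nrm_nonneg _) (Ne.symm hC)
  -- the bond set is not empty
  have hf : 0 < f := by
    rcases Nat.eq_zero_or_pos f with h | h
    · exfalso
      subst h
      apply hC
      unfold nrm
      refine Finset.sum_eq_zero fun s _ => ?_
      have : pepsN C s = 0 := by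
        unfold pepsN
        refine Finset.sum_eq_zero fun hor _ => ?_
        exact (hor 0).elim0
      rw [this]; simp
    · exact h
  let k0 : Fin f := ⟨0, hf⟩
  let y0 : Fin f × Fin f × Fin f × Fin f := (k0, k0, k0, k0)
  set c : ℂ := (((Real.sqrt (nrm (pepsN C)))⁻¹ : ℝ) : ℂ) with hc
  have hcn : ‖c‖ ^ 2 = (nrm (pepsN C))⁻¹ := by
    rw [hc, Complex.norm_real, Real.norm_eq_abs, sq_abs, inv_pow, Real.sq_sqrt hn0.le]
  have hP : pepsN (scaleC c C) = fun s => c * pepsN C s := by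
    funext s; exact pepsN_scale c C s
  have hn1 : nrm (pepsN (scaleC c C)) = 1 := by
    rw [hP, nrm_scale, hcn, inv_mul_cancel₀ hC]
  set Φ : BConf d m → ℂ := fun σ => pepsN (scaleC c C) (glue σ) with hΦ
  have hΦ1 : nrm Φ = 1 := by
    have h := (Pool.Agent.Y155.PE.cut d m 0 (pepsN (scaleC c C)) (0, 0)
      ⟨Nat.zero_le _, Nat.zero_le _⟩ (fun _ _ => 0)).1
    rw [hΦ, h, hn1]
  have hcard : Fintype.card (Lab (m * M + 1) × Lab (m * M + 1) × (Fin f × Fin f × Fin f × Fin f)) =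
      bondG m f ε := by
    simp only [Lab, Fintype.card_prod, Fintype.card_fin, bondG]
    rw [← hM]
    ring
  let e : Fin (bondG m f ε) ≃ Lab (m * M + 1) × Lab (m * M + 1) × (Fin f × Fin f × Fin f × Fin f) :=
    (finCongr hcard.symm).trans (Fintype.equivFin _).symm
  refine ⟨fun s a b c' t => tensG (N := m * M + 1) (wB m M (wI (scaleC c C)) y0) s
    (e a) (e b) (e c') (e t), ?_⟩
  intro L _ hL
  have hL1 : r + 2 * (m * M + 1) + 3 ≤ L := by
    refine le_trans ?_ hL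
    nlinarith
  have hL2 : (m * M + 1) ^ 2 ≤ L := by
    refine le_trans ?_ hL
    nlinarith
  have hmL : m ≤ L := by
    have h2 : m * 1 ≤ m * M := Nat.mul_le_mul_left _ hM0
    omega
  have hpeps : pepsX (fun (s : Fin d) (a b c' t : Fin (bondG m f ε)) =>
      tensG (N := m * M + 1) (wB m M (wI (scaleC c C)) y0) s (e a) (e b) (e c') (e t)) L =
      tot m M Φ L := by
    rw [pepsX_equiv e (tensG (N := m * M + 1) (wB m M (wI (scaleC c C)) y0)) L]
    funext s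
    exact collapse2 hmL (scaleC c C) y0 s
  have hPos : ∀ p ∈ PosF r m, p.1 + r ≤ m ∧ p.2 + r ≤ m := fun p hp => mem_PosF hrm hp
  have key : ∀ B : BConf d r → BConf d r → ℂ, Contr B → ∀ (b : ℂ), ‖b‖ ≤ 1 → ∀ η : ℝ,
      (∀ u : Site m, ‖expec (pepsN C) u B / (nrm (pepsN C) : ℂ) - b‖ ≤ η) →
      0 < nrm (tot m M Φ L) ∧
      ‖expec (tot m M Φ L) 0 B / (nrm (tot m M Φ L) : ℂ) - b‖ ≤ ε + η := by
    intro B hBc b hb η hη
    have hη0 : 0 ≤ η := (norm_nonneg _).trans (hη 0)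
    have hη' : ∀ p (hp : p ∈ PosF r m), ‖expecBlock Φ p (hPos p hp) B - b‖ ≤ η := by
      intro p hp
      have h1 := (Pool.Agent.Y155.PE.cut d m r (pepsN (scaleC c C)) p (hPos p hp) B).2 hr
      rw [hΦ, h1, hP, expec_scale, hcn]
      have h2 := hη (((p.1 : ℕ) : ZMod m), ((p.2 : ℕ) : ZMod m))
      have h3 : (((nrm (pepsN C))⁻¹ : ℝ) : ℂ) *
          expec (pepsN C) (((p.1 : ℕ) : ZMod m), ((p.2 : ℕ) : ZMod m)) B =
          expec (pepsN C) (((p.1 : ℕ) : ZMod m), ((p.2 : ℕ) : ZMod m)) B /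
            (nrm (pepsN C) : ℂ) := by
        push_cast
        rw [div_eq_inv_mul]
      rw [h3]
      exact h2
    obtain ⟨h1, h2⟩ := main_G Pool.Agent.Y562.PE.orth
      Pool.Agent.Y297.PE.factor Pool.Agent.Y65.PE.weights Pool.Agent.Y328.PE.shiftMain
      Pool.Agent.Y794.PE.exist Pool.Agent.Y794.PE.nonzero Pool.Agent.Y65.PE.bound
      hd hm0 hM0 hr hL1 hL2 Φ hΦ1 (PosF r m) hPos B hBc b hb η hη0 hη'
    refine ⟨h1, h2.trans ?_⟩
    linarith
  have hzero : Contr (fun _ _ => 0 : BConf d r → BConf d r → ℂ) := by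
    intro f'
    have : nrm (fun _ : BConf d r => (∑ τ : BConf d r, (0 : ℂ) * f' τ)) = 0 := by
      unfold nrm; simp
    rw [this]
    exact nrm_nonneg f'
  have hz : ∀ u : Site m, ‖expec (pepsN C) u (fun _ _ => 0 : BConf d r → BConf d r → ℂ) /
      (nrm (pepsN C) : ℂ) - 0‖ ≤ 0 := by
    intro u
    have : expec (pepsN C) u (fun _ _ => 0 : BConf d r → BConf d r → ℂ) = 0 := by
      unfold expec; simp
    rw [this]; simp
  refine ⟨?_, ?_⟩
  · rw [hpeps]; exact (key _ hzero 0 (by simp) 0 hz).1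
  · intro B hBc b hb η hη v
    have h3 := Pool.Agent.Y328.PE.pepsMain d L (Fin (bondG m f ε))
      (fun (s : Fin d) (a b c' t : Fin (bondG m f ε)) =>
      tensG (N := m * M + 1) (wB m M (wI (scaleC c C)) y0) s (e a) (e b) (e c') (e t)) r v B
    rw [h3, hpeps]
    exact (key B hBc b hb η hη).2

end Pool.Agent.Y738.PE
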