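import Pool.Agent.Y738.PE.Glob

/-! # Region version and polynomial bounds -/

open scoped BigOperators ComplexConjugate Classical

noncomputable section

namespace Pool.Agent.Y738.PE

theorem glob_region (d : ℕ) (hd : 2 ≤ d) (R : Finset (ℤ × ℤ)) :
    ∃ r : ℕ, 0 < r ∧ ∀ ε : ℝ, 0 < ε → ε ≤ 1 → ∀ (m : ℕ) [NeZero m], 16 * (r : ℝ) / ε ≤ m →
      ∀ (f : ℕ) (C : Site m → Tensor d f), nrm (pepsN C) ≠ 0 →
      ∃ A : Tensor d (bondG m f ε), ∀ (L : ℕ) [NeZero L], r + (m * ⌈24 / ε⌉₊ + 3) ^ 2 ≤ L →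
        nrm (pepsX A L) ≠ 0 ∧
        ∀ (L' : ℕ) [NeZero L'] (Ψ : Conf d L' → ℂ) (η : ℝ), r ≤ L' →
          Close R Ψ (pepsN C) η → Close R Ψ (pepsX A L) (ε + η) := by
  obtain ⟨r, a, hr, hB⟩ := Pool.Agent.Y70.PE.region d R
  refine ⟨r, hr, fun ε hε hε1 m _ hm f C hC => ?_⟩
  obtain ⟨A, hA⟩ := glob_box hd hr hε hε1 m hm f C hC
  have hrm : r ≤ m := (param_bound2 hr hε hε1 m _ hm (Nat.le_ceil _)).1
  refine ⟨A, fun L _ hL => ?_⟩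
  obtain ⟨h1, h2⟩ := hA L hL
  refine ⟨h1.ne', fun L' _ Ψ η hL' hcl u v B hBc => ?_⟩
  obtain ⟨B', hB', hBB⟩ := hB B hBc
  have hrL : r ≤ L := by omega
  have hb : ‖expecR R Ψ u B / (nrm Ψ : ℂ)‖ ≤ 1 := by
    rw [hBB L' hL' Ψ u, norm_div, Complex.norm_real, Real.norm_eq_abs,
      abs_of_nonneg (nrm_nonneg Ψ)]
    exact div_le_one_of_le₀ (Pool.Agent.Y65.PE.bound d L' r hL' Ψ _ B' hB') (nrm_nonneg Ψ)
  have h3 := h2 B' hB' (expecR R Ψ u B / (nrm Ψ : ℂ)) hb η (by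
    intro w
    have h4 := hcl u (w.1 - (a.1 : ZMod m), w.2 - (a.2 : ZMod m)) B hBc
    rw [hBB m hrm (pepsN C)] at h4
    simp only [sub_add_cancel] at h4
    rw [norm_sub_rev]
    exact h4) (v.1 + (a.1 : ZMod L), v.2 + (a.2 : ZMod L))
  rw [hBB L hrL (pepsX A L) v, norm_sub_rev]
  exact h3

/-- The polynomial bound. -/
theorem poly_bound (c k : ℕ) (ε : ℝ) (hε : 0 < ε) (hε1 : ε ≤ 1) (m f : ℕ)
    (hm : (m : ℝ) ≤ c * (1 / (ε / 2)) ^ k) (hf : (f : ℝ) ≤ c * (1 / (ε / 2)) ^ k) :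
    (bondG m f (ε / 2) : ℝ) ≤
      ((102 * ((c + 1) * 2 ^ k)) ^ 2 * ((c + 1) * 2 ^ k) ^ 4 : ℕ) * (1 / ε) ^ (6 * k + 2) := by
  set x : ℝ := 1 / ε with hx
  have hx1 : 1 ≤ x := by rw [hx, le_div_iff₀ hε]; linarith
  have hx0 : 0 < x := by linarith
  have e1 : (1 / (ε / 2)) = 2 * x := by rw [hx]; field_simp
  rw [e1, mul_pow] at hm hf
  have hxk : 1 ≤ x ^ k := one_le_pow₀ hx1
  set y : ℝ := ((c : ℝ) + 1) * 2 ^ k with hy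
  have hy1 : 1 ≤ y := by
    have : (1 : ℝ) ≤ 2 ^ k := one_le_pow₀ (by norm_num)
    have hc0 : (0 : ℝ) ≤ c := Nat.cast_nonneg c
    nlinarith
  have hm' : (m : ℝ) ≤ y * x ^ k := by
    refine hm.trans ?_
    rw [hy, ← mul_assoc]
    have : (0 : ℝ) ≤ 2 ^ k * x ^ k := by positivity
    nlinarith
  have hf' : (f : ℝ) ≤ y * x ^ k := by
    refine hf.trans ?_
    rw [hy, ← mul_assoc]
    have : (0 : ℝ) ≤ 2 ^ k * x ^ k := by positivity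
    nlinarith
  have hceil : ((⌈24 / (ε / 2)⌉₊ : ℕ) : ℝ) ≤ 49 * x := by
    have h1 := (Nat.ceil_lt_add_one (a := 24 / (ε / 2)) (by positivity)).le
    have h2 : 24 / (ε / 2) = 48 * x := by rw [hx]; field_simp; norm_num
    rw [h2] at h1
    have h3 : ((⌈24 / (ε / 2)⌉₊ : ℕ) : ℝ) ≤ 48 * x + 1 := by rw [h2]; exact h1
    linarith
  unfold bondG
  push_cast
  have hxy : 1 ≤ y * x ^ k := by nlinarith
  have h4 : (2 * ((m : ℝ) * (⌈24 / (ε / 2)⌉₊ : ℕ) + 2)) ≤ 102 * y * x ^ (k + 1) := by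
    have h5 : (m : ℝ) * (⌈24 / (ε / 2)⌉₊ : ℕ) ≤ (y * x ^ k) * (49 * x) :=
      mul_le_mul hm' hceil (Nat.cast_nonneg _) (by linarith)
    have h6 : 1 ≤ y * x ^ k * x := by nlinarith
    have h7 : x ^ (k + 1) = x ^ k * x := pow_succ x k
    rw [h7]
    nlinarith
  have hy' : (102 * (((c : ℝ) + 1) * 2 ^ k)) ^ 2 * (((c : ℝ) + 1) * 2 ^ k) ^ 4 * x ^ (6 * k + 2) =
      (102 * y * x ^ (k + 1)) ^ 2 * (y * x ^ k) ^ 4 := by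
    rw [← hy]; ring
  rw [hy']
  refine mul_le_mul (pow_le_pow_left₀ (by positivity) h4 2) (pow_le_pow_left₀ (by positivity) hf' 4)
    (by positivity) (by positivity)

/-- Polynomially efficient local approximation by arbitrary PEPS at single sizes. -/
def EffSingle {d : ℕ} (R : Finset (ℤ × ℤ)) (r : ℕ) (Ψ : ∀ L : ℕ, Conf d L → ℂ) : Prop :=
  ∃ c k : ℕ, ∀ ε : ℝ, 0 < ε → ε ≤ 1 → ∃ (m : ℕ) (_ : NeZero m) (f : ℕ) (C : Site m → Tensor d f),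
    nrm (pepsN C) ≠ 0 ∧ (r : ℝ) / ε ≤ m ∧ (m : ℝ) ≤ c * (1 / ε) ^ k ∧ (f : ℝ) ≤ c * (1 / ε) ^ k ∧
    ∃ L₁ : ℕ, ∀ (L : ℕ) [NeZero L], L₁ ≤ L → Close R (Ψ L) (pepsN C) ε

/-- Polynomially efficient local approximation by translation invariant PEPS at all sizes. -/
def EffTI {d : ℕ} (R : Finset (ℤ × ℤ)) (Ψ : ∀ L : ℕ, Conf d L → ℂ) : Prop :=
  ∃ c k : ℕ, ∀ ε : ℝ, 0 < ε → ε ≤ 1 → ∃ (D : ℕ) (A : Tensor d D),
    (D : ℝ) ≤ c * (1 / ε) ^ k ∧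
    ∃ L₁ : ℕ, ∀ (L : ℕ) [NeZero L], L₁ ≤ L → nrm (pepsX A L) ≠ 0 ∧ Close R (Ψ L) (pepsX A L) ε

theorem close_mono {d L L' : ℕ} [NeZero L] [NeZero L'] {R : Finset (ℤ × ℤ)} {Ψ : Conf d L → ℂ}
    {Ψ' : Conf d L' → ℂ} {ε ε' : ℝ} (h : Close R Ψ Ψ' ε) (hε : ε ≤ ε') : Close R Ψ Ψ' ε' :=
  fun u v B hB => (h u v B hB).trans hε

theorem eff (d : ℕ) (hd : 2 ≤ d) (R : Finset (ℤ × ℤ)) :
    ∃ r : ℕ, 0 < r ∧ ∀ Ψ : ∀ L : ℕ, Conf d L → ℂ, EffSingle R r Ψ → EffTI R Ψ := by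
  obtain ⟨r, hr, hmain⟩ := glob_region d hd R
  refine ⟨16 * r, by omega, ?_⟩
  rintro Ψ ⟨c, k, h⟩
  refine ⟨(102 * ((c + 1) * 2 ^ k)) ^ 2 * ((c + 1) * 2 ^ k) ^ 4, 6 * k + 2, ?_⟩
  intro ε hε hε1
  obtain ⟨m, hm, f, C, hC, hm1, hm2, hf, L₁, hL₁⟩ := h (ε / 2) (by linarith) (by linarith)
  have hm1' : 16 * (r : ℝ) / (ε / 2) ≤ m := by
    refine le_trans (le_of_eq ?_) hm1
    push_cast; ring
  obtain ⟨A, hA⟩ := hmain (ε / 2) (by linarith) (by linarith) m hm1' f C hC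
  refine ⟨bondG m f (ε / 2), A, poly_bound c k ε hε hε1 m f hm2 hf,
    max L₁ (r + (m * ⌈24 / (ε / 2)⌉₊ + 3) ^ 2), ?_⟩
  intro L _ hL
  obtain ⟨h1, h2⟩ := hA L (le_trans (le_max_right _ _) hL)
  refine ⟨h1, ?_⟩
  have h3 := h2 L (Ψ L) (ε / 2) (by
    have := le_trans (le_max_right _ _) hL
    omega) (hL₁ L (le_trans (le_max_left _ _) hL))
  refine close_mono h3 (by linarith)

end Pool.Agent.Y738.PE
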