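import Pool.Agent.Y738.PE.Final

/-! # Unique gapped ground states are translation invariant; final form of the theorem -/

open scoped BigOperators ComplexConjugate Classical

noncomputable section

namespace Pool.Agent.Y738.PE

theorem box_shift' {d L r : ℕ} (s : Conf d L) (a v : Site L) :
    box r (fun w => s (w + a)) v = box r s (v + a) := by
  funext p
  show s ((v.1 + ((p.1 : ℕ) : ZMod L), v.2 + ((p.2 : ℕ) : ZMod L)) + a) =
    s ((v + a).1 + ((p.1 : ℕ) : ZMod L), (v + a).2 + ((p.2 : ℕ) : ZMod L))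
  congr 1
  refine Prod.ext ?_ ?_
  · show (v.1 + ((p.1 : ℕ) : ZMod L)) + a.1 = (v.1 + a.1) + _
    ring
  · show (v.2 + ((p.2 : ℕ) : ZMod L)) + a.2 = (v.2 + a.2) + _
    ring

theorem put_shift' {d L r : ℕ} (s : Conf d L) (a v : Site L) (τ : BConf d r) :
    put (fun w => s (w + a)) v τ = fun w => (put s (v + a) τ) (w + a) := by
  funext w
  unfold put
  simp only [Prod.fst_add, Prod.snd_add, add_sub_add_right_eq_sub]

theorem ham_shift {d k L : ℕ} [NeZero L] (h : BConf d k → BConf d k → ℂ) (Ψ : Conf d L → ℂ)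
    (a : Site L) (s : Conf d L) :
    ham h L (fun t : Conf d L => Ψ (fun w => t (w + a))) s =
      ham h L Ψ (fun w => s (w + a)) := by
  unfold ham
  rw [← Equiv.sum_comp (Equiv.subRight a)
    (fun v : Site L => ∑ τ : BConf d k, h (box k (fun w => s (w + a)) v) τ *
      Ψ (put (fun w => s (w + a)) v τ))]
  refine Finset.sum_congr rfl fun v _ => Finset.sum_congr rfl fun τ _ => ?_
  have e1 : (Equiv.subRight a) v = v - a := rfl
  rw [e1, box_shift', put_shift', sub_add_cancel]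

theorem nrm_eq_zero {S : Type} [Fintype S] {f : S → ℂ} (h : nrm f ≤ 0) (s : S) : f s = 0 := by
  have h0 : nrm f = 0 := le_antisymm h (nrm_nonneg f)
  unfold nrm at h0
  rw [Finset.sum_eq_zero_iff_of_nonneg (fun _ _ => by positivity)] at h0
  have := h0 s (Finset.mem_univ s)
  simpa using this

theorem sum_conj_self {S : Type} [Fintype S] (f : S → ℂ) :
    ∑ s, conj (f s) * f s = ((nrm f : ℝ) : ℂ) := by
  unfold nrm
  push_cast
  refine Finset.sum_congr rfl fun s _ => ?_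
  rw [mul_comm, Complex.mul_conj, Complex.normSq_eq_norm_sq]
  push_cast
  rfl

/-- Unique gapped ground states are translation invariant up to scalars. -/
theorem gapped_transInv {d k L : ℕ} [NeZero L] (h : BConf d k → BConf d k → ℂ) {Δ : ℝ}
    (hΔ : 0 < Δ) (Ψ : Conf d L → ℂ) (hG : IsGapped h L Δ Ψ) : TransInv Ψ := by
  intro a
  obtain ⟨hn, E, hE, hgap⟩ := hG
  set T : Conf d L → ℂ := fun s => Ψ (fun w => s (w + a)) with hT
  set c : ℂ := ∑ s, conj (Ψ s) * T s with hc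
  refine ⟨c, ?_⟩
  set φ : Conf d L → ℂ := fun s => T s - c * Ψ s with hφ
  have hHT : ∀ s, ham h L T s = E * T s := by
    intro s
    rw [hT, ham_shift, hE]
  have hlin : ∀ s, ham h L φ s = ham h L T s - c * ham h L Ψ s := by
    intro s
    unfold ham
    rw [Finset.mul_sum, ← Finset.sum_sub_distrib]
    refine Finset.sum_congr rfl fun v _ => ?_
    rw [Finset.mul_sum, ← Finset.sum_sub_distrib]
    refine Finset.sum_congr rfl fun τ _ => ?_
    rw [hφ]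
    ring
  have hHφ : ∀ s, ham h L φ s = E * φ s := by
    intro s
    rw [hlin, hHT, hE, hφ]
    ring
  have horth : ∑ s, conj (Ψ s) * φ s = 0 := by
    have h1 : ∑ s, conj (Ψ s) * φ s = c - c * ∑ s, conj (Ψ s) * Ψ s := by
      rw [Finset.mul_sum]
      conv_rhs => rw [hc]
      rw [← Finset.sum_sub_distrib]
      refine Finset.sum_congr rfl fun s _ => ?_
      rw [hφ]
      ring
    rw [h1, sum_conj_self, hn]
    simp
  have h2 := hgap φ horth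
  have h3 : (∑ s, conj (φ s) * ham h L φ s) = ((E * nrm φ : ℝ) : ℂ) := by
    have : (∑ s, conj (φ s) * ham h L φ s) = E * ∑ s, conj (φ s) * φ s := by
      rw [Finset.mul_sum]
      refine Finset.sum_congr rfl fun s _ => ?_
      rw [hHφ]
      ring
    rw [this, sum_conj_self]
    push_cast
    rfl
  rw [h3, Complex.ofReal_re] at h2
  have h4 : nrm φ ≤ 0 := by
    have h5 := nrm_nonneg φ
    nlinarith
  intro s
  have h6 := nrm_eq_zero h4 s
  rw [hφ] at h6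
  exact sub_eq_zero.1 h6

/-- The reduced density matrices on `R` of the normalised vectors `Ψ` and `Ψ'` (on two possibly
different tori, at any positions) have trace distance at most `ε`. -/
def Close {d L L' : ℕ} [NeZero L] [NeZero L'] (R : Finset (ℤ × ℤ)) (Ψ : Conf d L → ℂ)
    (Ψ' : Conf d L' → ℂ) (ε : ℝ) : Prop :=
  ∀ (u : Site L) (v : Site L') (B : (R → Fin d) → (R → Fin d) → ℂ), Contr B →
    ‖expecR R Ψ u B / (nrm Ψ : ℂ) - expecR R Ψ' v B / (nrm Ψ' : ℂ)‖ ≤ ε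

theorem final (huniv : ∀ (d : ℕ), 2 ≤ d → ∀ (R : Finset (ℤ × ℤ)),
    ∃ r : ℕ, 0 < r ∧ ∀ ε : ℝ, 0 < ε → ε ≤ 1 →
      ∃ (L₀ K : ℕ) (A : Fin K → Tensor d (bond d r ε)),
      ∀ (L : ℕ) [NeZero L], L₀ ≤ L → ∀ Ψ : Conf d L → ℂ, nrm Ψ = 1 →
      (∀ (r : ℕ) (v : Site L) (B : BConf d r → BConf d r → ℂ), expec Ψ v B = expec Ψ 0 B) →
      ∃ k, ∀ (L' : ℕ) [NeZero L'], L₀ ≤ L' → 0 < nrm (pepsX (A k) L') ∧
        ∀ (u : Site L) (v : Site L') (B : (R → Fin d) → (R → Fin d) → ℂ), Contr B →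
          ‖expecR R (pepsX (A k) L') v B / (nrm (pepsX (A k) L') : ℂ) - expecR R Ψ u B‖ ≤ ε)
    (d : ℕ) (hd : 2 ≤ d) (R : Finset (ℤ × ℤ)) :
    ∃ r : ℕ, ∀ ε : ℝ, 0 < ε → ε ≤ 1 →
      ∃ (L₀ K : ℕ) (A : Fin K → Tensor d (bond d r ε)),
        (∀ (L : ℕ) [NeZero L], L₀ ≤ L → ∀ Ψ : Conf d L → ℂ, nrm Ψ = 1 → TransInv Ψ →
          ∃ k : Fin K, ∀ (L' : ℕ) [NeZero L'], L₀ ≤ L' →
            nrm (pepsX (A k) L') ≠ 0 ∧ Close R Ψ (pepsX (A k) L') ε) ∧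
        (∀ (δ : ℝ) (k : ℕ) (h : BConf d k → BConf d k → ℂ) (Δ : ℝ), 0 < Δ →
          ∀ (Ψ : ∀ L : ℕ, Conf d L → ℂ) (L₁ : ℕ),
          (∀ (L : ℕ) [NeZero L], L₁ ≤ L → IsGapped h L Δ (Ψ L)) →
          (∀ (L L' : ℕ) [NeZero L] [NeZero L'], L₁ ≤ L → L₁ ≤ L' → Close R (Ψ L) (Ψ L') δ) →
          ∃ k : Fin K, ∀ (L : ℕ) [NeZero L], L₀ ≤ L → L₁ ≤ L →
            nrm (pepsX (A k) L) ≠ 0 ∧ Close R (Ψ L) (pepsX (A k) L) (ε + δ)) := by
  obtain ⟨r, hr, hrr⟩ := huniv d hd R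
  refine ⟨r, fun ε hε hε1 => ?_⟩
  obtain ⟨L₀, K, A, hA⟩ := hrr ε hε hε1
  have part1 : ∀ (L : ℕ) [NeZero L], L₀ ≤ L → ∀ Ψ : Conf d L → ℂ, nrm Ψ = 1 → TransInv Ψ →
          ∃ k : Fin K, ∀ (L' : ℕ) [NeZero L'], L₀ ≤ L' →
            nrm (pepsX (A k) L') ≠ 0 ∧ Close R Ψ (pepsX (A k) L') ε := by
    intro L _ hL Ψ hΨ hTI
    obtain ⟨k, hk⟩ := hA L hL Ψ hΨ (transInv_expec Ψ hΨ hTI)
    refine ⟨k, fun L' _ hL' => ?_⟩
    obtain ⟨h1, h2⟩ := hk L' hL'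
    refine ⟨h1.ne', fun u v B hB => ?_⟩
    have h3 := h2 u v B hB
    rw [hΨ, norm_sub_rev]
    simpa using h3
  refine ⟨L₀, K, A, part1, ?_⟩
  intro δ k h Δ hΔ Ψ L₁ hgap hconv
  have hne : NeZero (max L₀ L₁ + 1) := ⟨by omega⟩
  have hg := hgap (max L₀ L₁ + 1) (by omega)
  obtain ⟨k', hk'⟩ := part1 (max L₀ L₁ + 1) (by omega) (Ψ (max L₀ L₁ + 1)) hg.1
    (gapped_transInv h hΔ _ hg)
  refine ⟨k', fun L _ hL0 hL1 => ?_⟩
  obtain ⟨h1, h2⟩ := hk' L hL0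
  refine ⟨h1, fun u v B hB => ?_⟩
  have h3 := hconv L (max L₀ L₁ + 1) hL1 (by omega) u 0 B hB
  have h4 := h2 0 v B hB
  calc ‖expecR R (Ψ L) u B / (nrm (Ψ L) : ℂ) -
        expecR R (pepsX (A k') L) v B / (nrm (pepsX (A k') L) : ℂ)‖
      ≤ ‖expecR R (Ψ L) u B / (nrm (Ψ L) : ℂ) - expecR R (Ψ (max L₀ L₁ + 1)) 0 B /
          (nrm (Ψ (max L₀ L₁ + 1)) : ℂ)‖ +
        ‖expecR R (Ψ (max L₀ L₁ + 1)) 0 B / (nrm (Ψ (max L₀ L₁ + 1)) : ℂ) -
          expecR R (pepsX (A k') L) v B / (nrm (pepsX (A k') L) : ℂ)‖ :=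
        norm_sub_le_norm_sub_add_norm_sub _ _ _
    _ ≤ δ + ε := add_le_add h3 h4
    _ = ε + δ := by ring

end Pool.Agent.Y738.PE
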