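import Pool.Agent.Y738.PE.Stm

/-! # Assembly: expectations in the superposition of all tilings -/

open scoped BigOperators ComplexConjugate Classical

noncomputable section

namespace Pool.Agent.Y738.PE

theorem sum_cross {ι : Type} (V : Finset ι) (f g : ι → ℂ) (c : ℂ)
    (h : ∀ i ∈ V, ∀ j ∈ V, i ≠ j → f i = 0 ∨ g j = 0) :
    conj (∑ i ∈ V, f i) * c * (∑ j ∈ V, g j) = ∑ i ∈ V, conj (f i) * c * g i := by
  rw [map_sum, Finset.sum_mul, Finset.sum_mul]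
  refine Finset.sum_congr rfl fun i hi => ?_
  rw [Finset.mul_sum]
  refine Finset.sum_eq_single_of_mem i hi fun j hj hji => ?_
  rcases h i hi j hj (Ne.symm hji) with h0 | h0
  · rw [h0]; simp
  · rw [h0]; simp

theorem normSq_cross {ι : Type} (V : Finset ι) (f : ι → ℂ)
    (h : ∀ i ∈ V, ∀ j ∈ V, i ≠ j → f i = 0 ∨ f j = 0) :
    ‖∑ i ∈ V, f i‖ ^ 2 = ∑ i ∈ V, ‖f i‖ ^ 2 := by
  have h1 := sum_cross V f f 1 h
  have h2 : ∀ z : ℂ, conj z * 1 * z = ((‖z‖ ^ 2 : ℝ) : ℂ) := by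
    intro z
    rw [mul_one, mul_comm, Complex.mul_conj, Complex.normSq_eq_norm_sq]
  rw [h2] at h1
  have h3 : (∑ i ∈ V, conj (f i) * 1 * f i) = ((∑ i ∈ V, ‖f i‖ ^ 2 : ℝ) : ℂ) := by
    push_cast
    refine Finset.sum_congr rfl fun i _ => ?_
    rw [h2]; push_cast; rfl
  rw [h3] at h1
  exact_mod_cast h1

theorem nrm_nonneg {S : Type} [Fintype S] (f : S → ℂ) : 0 ≤ nrm f :=
  Finset.sum_nonneg fun _ _ => by positivity

theorem put_off {d L r : ℕ} (s : Conf d L) (τ : BConf d r) (w : Site L)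
    (hw : ¬ (w.1.val < r ∧ w.2.val < r)) : s w = put s 0 τ w := by
  have : ¬ ((w.1 - (0 : Site L).1).val < r ∧ (w.2 - (0 : Site L).2).val < r) := by
    simpa using hw
  unfold put
  rw [dif_neg this]

theorem expec_tot (hO : StmOrth) {d m M L r : ℕ} [NeZero L] (hm : 0 < m) (hM : 0 < M)
    (hL : r + 2 * (m * M + 1) + 3 ≤ L) (Φ : BConf d m → ℂ) (B : BConf d r → BConf d r → ℂ) :
    expec (tot m M Φ L) 0 B =
      ∑ θ ∈ (Finset.univ : Finset (Til (m * M + 1) L)).filter Valid,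
        expec (glob m M Φ θ) 0 B := by
  unfold expec
  symm
  rw [Finset.sum_comm]
  refine Finset.sum_congr rfl fun s _ => ?_
  rw [Finset.sum_comm]
  refine Finset.sum_congr rfl fun τ _ => ?_
  symm
  unfold tot
  refine sum_cross _ _ _ _ fun θ hθ θ' hθ' hne => ?_
  exact hO d m M L r hm hM hL Φ θ θ' (Finset.mem_filter.1 hθ).2 (Finset.mem_filter.1 hθ').2 hne
    s (put s 0 τ) (fun w hw => put_off s τ w hw)

theorem nrm_tot (hO : StmOrth) {d m M L : ℕ} [NeZero L] (hm : 0 < m) (hM : 0 < M)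
    (hL : 2 * (m * M + 1) + 3 ≤ L) (Φ : BConf d m → ℂ) :
    nrm (tot m M Φ L) =
      ∑ θ ∈ (Finset.univ : Finset (Til (m * M + 1) L)).filter Valid, nrm (glob m M Φ θ) := by
  unfold nrm
  symm
  rw [Finset.sum_comm]
  refine Finset.sum_congr rfl fun s _ => ?_
  symm
  unfold tot
  refine normSq_cross _ _ fun θ hθ θ' hθ' hne => ?_
  exact hO d m M L 0 hm hM (by omega) Φ θ θ' (Finset.mem_filter.1 hθ).2
    (Finset.mem_filter.1 hθ').2 hne s s (fun w _ => rfl)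

theorem main_G (hO : StmOrth) (hF : StmFactor) (hW : StmWeights) (hS : StmShift)
    (hE : StmExist) (hN : StmNonzero) (hB : StmBound)
    {d m M L r : ℕ} [NeZero L] (hd : 2 ≤ d) (hm : 0 < m) (hM : 0 < M) (hr : 0 < r)
    (hL1 : r + 2 * (m * M + 1) + 3 ≤ L) (hL2 : (m * M + 1) ^ 2 ≤ L)
    (Φ : BConf d m → ℂ) (hΦ : nrm Φ = 1) (Pos : Finset (ℕ × ℕ))
    (hPos : ∀ p ∈ Pos, p.1 + r ≤ m ∧ p.2 + r ≤ m) (B : BConf d r → BConf d r → ℂ)
    (hBc : Contr B) (b : ℂ) (hb : ‖b‖ ≤ 1) (η : ℝ) (hη0 : 0 ≤ η)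
    (hη : ∀ p (hp : p ∈ Pos), ‖expecBlock Φ p (hPos p hp) B - b‖ ≤ η) :
    0 < nrm (tot m M Φ L) ∧
    ‖expec (tot m M Φ L) 0 B / (nrm (tot m M Φ L) : ℂ) - b‖ ≤
      η + 2 * (1 - ((M * (M - 1) * Pos.card : ℕ) : ℝ) / (((m * M + 2) ^ 2 : ℕ) : ℝ)) := by
  have hmL : m ≤ L := by
    have : m * 1 ≤ m * M := Nat.mul_le_mul_left m hM
    nlinarith
  have hrL : r ≤ L := by omega
  set V : Finset (Til (m * M + 1) L) := (Finset.univ : Finset (Til (m * M + 1) L)).filter Valid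
    with hV
  set W : Til (m * M + 1) L → ℝ := fun θ => nrm (glob m M Φ θ) with hWdef
  have hW0 : ∀ θ, 0 ≤ W θ := fun θ => nrm_nonneg _
  have hmemV : ∀ θ, θ ∈ V ↔ Valid θ := by
    intro θ; rw [hV, Finset.mem_filter]; simp
  obtain ⟨α, hα⟩ := hE (m * M + 1) L (by omega) hL2
  have hWpos : ∀ θ ∈ V, 0 < W θ := fun θ hθ =>
    hN d m M L hd hm hmL Φ hΦ θ ((hmemV θ).1 hθ)
  have hSpos : 0 < ∑ θ ∈ V, W θ := by
    refine Finset.sum_pos hWpos ⟨(α, α), (hmemV _).2 ⟨hα, hα⟩⟩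
  have hnrm : nrm (tot m M Φ L) = ∑ θ ∈ V, W θ := nrm_tot hO hm hM (by omega) Φ
  have hexp : expec (tot m M Φ L) 0 B = ∑ θ ∈ V, expec (glob m M Φ θ) 0 B :=
    expec_tot hO hm hM hL1 Φ B
  refine ⟨by rw [hnrm]; exact hSpos, ?_⟩
  set G : Til (m * M + 1) L → Prop := fun θ => Blk m M (θ.1 0).2 (θ.2 0).2 ∧
    ((((θ.1 0).2 : ℕ) - 1) % m, (((θ.2 0).2 : ℕ) - 1) % m) ∈ Pos with hG
  have hweights := hW m M L hm hM W hW0 (fun θ _ => (hS d m M L Φ θ).1)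
    (fun θ _ => (hS d m M L Φ θ).2) Pos (fun p hp => by
      have := hPos p hp; constructor <;> omega)
  have hfilt : (Finset.univ : Finset (Til (m * M + 1) L)).filter
      (fun θ => Valid θ ∧ Blk m M (θ.1 0).2 (θ.2 0).2 ∧
          ((((θ.1 0).2 : ℕ) - 1) % m, (((θ.2 0).2 : ℕ) - 1) % m) ∈ Pos) = V.filter G := by
    rw [hV, Finset.filter_filter]
  rw [hfilt] at hweights
  -- the good terms
  have hgood : ∀ θ ∈ V.filter G, ‖expec (glob m M Φ θ) 0 B - b * (W θ : ℂ)‖ ≤ η * W θ := by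
    intro θ hθ
    rw [Finset.mem_filter] at hθ
    obtain ⟨hθV, hblk, hpos⟩ := hθ
    have h1 := hF d m M L r hm hmL Φ hΦ θ ((hmemV θ).1 hθV) hblk (hPos _ hpos) B
    rw [h1]
    have h2 := hη _ hpos
    rw [← sub_mul, norm_mul]
    have h3 : ‖((nrm (glob m M Φ θ) : ℝ) : ℂ)‖ = W θ := by
      rw [Complex.norm_real, Real.norm_eq_abs, abs_of_nonneg (hW0 θ)]
    rw [h3]
    exact mul_le_mul_of_nonneg_right h2 (hW0 θ)
  have hbad : ∀ θ ∈ V.filter (fun θ => ¬ G θ),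
      ‖expec (glob m M Φ θ) 0 B - b * (W θ : ℂ)‖ ≤ 2 * W θ := by
    intro θ _
    have h1 := hB d L r hrL (glob m M Φ θ) 0 B hBc
    have h3 : ‖((nrm (glob m M Φ θ) : ℝ) : ℂ)‖ = W θ := by
      rw [Complex.norm_real, Real.norm_eq_abs, abs_of_nonneg (hW0 θ)]
    calc ‖expec (glob m M Φ θ) 0 B - b * (W θ : ℂ)‖
        ≤ ‖expec (glob m M Φ θ) 0 B‖ + ‖b * (W θ : ℂ)‖ := norm_sub_le _ _
      _ ≤ W θ + 1 * W θ := by
          refine add_le_add h1 ?_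
          rw [norm_mul]
          have h4 : ‖((W θ : ℝ) : ℂ)‖ = W θ := h3
          rw [h4]
          exact mul_le_mul_of_nonneg_right hb (hW0 θ)
      _ = 2 * W θ := by ring
  have hsplitW : ∑ θ ∈ V, W θ = (∑ θ ∈ V.filter G, W θ) + ∑ θ ∈ V.filter (fun θ => ¬ G θ), W θ :=
    (Finset.sum_filter_add_sum_filter_not V G W).symm
  set S := ∑ θ ∈ V, W θ with hSdef
  set S1 := ∑ θ ∈ V.filter G, W θ with hS1def
  set S2 := ∑ θ ∈ V.filter (fun θ => ¬ G θ), W θ with hS2def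
  have hdiff : expec (tot m M Φ L) 0 B - b * (S : ℂ) =
      (∑ θ ∈ V.filter G, (expec (glob m M Φ θ) 0 B - b * (W θ : ℂ))) +
      ∑ θ ∈ V.filter (fun θ => ¬ G θ), (expec (glob m M Φ θ) 0 B - b * (W θ : ℂ)) := by
    rw [Finset.sum_filter_add_sum_filter_not V G, Finset.sum_sub_distrib, hexp, hSdef,
      ← Finset.mul_sum]
    push_cast
    rfl
  have hbound : ‖expec (tot m M Φ L) 0 B - b * (S : ℂ)‖ ≤ η * S1 + 2 * S2 := by
    rw [hdiff]
    refine (norm_add_le _ _).trans (add_le_add ?_ ?_)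
    · refine (norm_sum_le _ _).trans ?_
      rw [hS1def, Finset.mul_sum]
      exact Finset.sum_le_sum hgood
    · refine (norm_sum_le _ _).trans ?_
      rw [hS2def, Finset.mul_sum]
      exact Finset.sum_le_sum hbad
  have hS0 : (S : ℂ) ≠ 0 := by exact_mod_cast hSpos.ne'
  have heq : expec (tot m M Φ L) 0 B / (nrm (tot m M Φ L) : ℂ) - b =
      (expec (tot m M Φ L) 0 B - b * (S : ℂ)) / (S : ℂ) := by
    rw [hnrm, sub_div, mul_div_cancel_right₀ _ hS0]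
  rw [heq, norm_div]
  have h5 : ‖(S : ℂ)‖ = S := by
    rw [Complex.norm_real, Real.norm_eq_abs, abs_of_pos hSpos]
  rw [h5, div_le_iff₀ hSpos]
  refine hbound.trans ?_
  have hK : (0 : ℝ) < (((m * M + 2) ^ 2 : ℕ) : ℝ) := by positivity
  set K : ℝ := (((m * M + 2) ^ 2 : ℕ) : ℝ) with hKdef
  set P : ℝ := ((M * (M - 1) * Pos.card : ℕ) : ℝ) with hPdef
  have hS1 : P / K * S ≤ S1 := by
    rw [div_mul_eq_mul_div, div_le_iff₀ hK]
    linarith [hweights]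
  have hS1nn : 0 ≤ S1 := Finset.sum_nonneg fun θ _ => hW0 θ
  have hS2nn : 0 ≤ S2 := Finset.sum_nonneg fun θ _ => hW0 θ
  have hS1le : S1 ≤ S := by linarith
  have e1 : η * S1 ≤ η * S := mul_le_mul_of_nonneg_left hS1le hη0
  have e2 : S2 = S - S1 := by linarith
  calc η * S1 + 2 * S2 ≤ η * S + 2 * (S - P / K * S) := by
        rw [e2]; linarith
    _ = (η + 2 * (1 - P / K)) * S := by ring

end Pool.Agent.Y738.PE
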