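import Pool.Agent.Y738.PE.Defs

/-! # Statements of the steps (jobs) for the local approximation by TI PEPS -/

open scoped BigOperators ComplexConjugate Classical

noncomputable section

namespace Pool.Agent.Y738.PE

/-- J1. The contraction of the tensor is the superposition of all tilings. -/
def StmCollapse : Prop := ∀ (d m M L : ℕ) [NeZero L], 0 < m → m ≤ L →
  ∀ (Φ : BConf d m → ℂ) (s : Conf d L), pepsX (tens m M Φ) L s = tot m M Φ L s

/-- J2. Different tilings are exactly orthogonal, even across an `r × r` box. -/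
def StmOrth : Prop := ∀ (d m M L r : ℕ) [NeZero L], 0 < m → 0 < M →
  r + 2 * (m * M + 1) + 3 ≤ L → ∀ (Φ : BConf d m → ℂ) (θ θ' : Til (m * M + 1) L),
  Valid θ → Valid θ' → θ ≠ θ' → ∀ s s' : Conf d L,
  (∀ w : Site L, ¬ (w.1.val < r ∧ w.2.val < r) → s w = s' w) →
  glob m M Φ θ s = 0 ∨ glob m M Φ θ' s' = 0

/-- J3. If the `r × r` box at `0` lies in a sub-block, its marginal is that of the block vector. -/
def StmFactor : Prop := ∀ (d m M L r : ℕ) [NeZero L], 0 < m → m ≤ L →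
  ∀ (Φ : BConf d m → ℂ), nrm Φ = 1 → ∀ (θ : Til (m * M + 1) L), Valid θ →
  Blk m M (θ.1 0).2 (θ.2 0).2 →
  ∀ (h : (((θ.1 0).2 : ℕ) - 1) % m + r ≤ m ∧ (((θ.2 0).2 : ℕ) - 1) % m + r ≤ m)
    (B : BConf d r → BConf d r → ℂ),
  expec (glob m M Φ θ) 0 B =
    expecBlock Φ ((((θ.1 0).2 : ℕ) - 1) % m, (((θ.2 0).2 : ℕ) - 1) % m) h B *
      (nrm (glob m M Φ θ) : ℂ)

/-- J4. Translation invariant weights: the proportion of tilings in which the site `0` is at a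
position of `Pos` in a sub-block. -/
def StmWeights : Prop := ∀ (m M L : ℕ) [NeZero L], 0 < m → 0 < M →
  ∀ (W : Til (m * M + 1) L → ℝ), (∀ θ, 0 ≤ W θ) →
  (∀ θ, Valid θ → W (fun x => θ.1 (x + 1), θ.2) = W θ) →
  (∀ θ, Valid θ → W (θ.1, fun x => θ.2 (x + 1)) = W θ) →
  ∀ (Pos : Finset (ℕ × ℕ)), (∀ p ∈ Pos, p.1 < m ∧ p.2 < m) →
  ((M * (M - 1) * Pos.card : ℕ) : ℝ) *
      (∑ θ ∈ (Finset.univ : Finset (Til (m * M + 1) L)).filter Valid, W θ) ≤
    (((m * M + 2) ^ 2 : ℕ) : ℝ) *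
      (∑ θ ∈ (Finset.univ : Finset (Til (m * M + 1) L)).filter
        (fun θ => Valid θ ∧ Blk m M (θ.1 0).2 (θ.2 0).2 ∧
          ((((θ.1 0).2 : ℕ) - 1) % m, (((θ.2 0).2 : ℕ) - 1) % m) ∈ Pos), W θ)

/-- J4'. The squared norms of the vectors of the tilings are translation invariant. -/
def StmShift : Prop := ∀ (d m M L : ℕ) [NeZero L] (Φ : BConf d m → ℂ) (θ : Til (m * M + 1) L),
  nrm (glob m M Φ ((fun x => θ.1 (x + 1), θ.2) : Til (m * M + 1) L)) = nrm (glob m M Φ θ) ∧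
  nrm (glob m M Φ ((θ.1, fun x => θ.2 (x + 1)) : Til (m * M + 1) L)) = nrm (glob m M Φ θ)

/-- J5a. Cyclic tilings exist on all long cycles. -/
def StmExist : Prop := ∀ (N L : ℕ) [NeZero L], 0 < N → N ^ 2 ≤ L →
  ∃ α : ZMod L → Lab N, Cyc α

/-- J5b. The vector of a tiling is nonzero. -/
def StmNonzero : Prop := ∀ (d m M L : ℕ) [NeZero L], 2 ≤ d → 0 < m → m ≤ L →
  ∀ (Φ : BConf d m → ℂ), nrm Φ = 1 → ∀ (θ : Til (m * M + 1) L), Valid θ →
  0 < nrm (glob m M Φ θ)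

/-- J6. Expectations of contractions are bounded by the squared norm. -/
def StmBound : Prop := ∀ (d L r : ℕ) [NeZero L], r ≤ L → ∀ (Ψ : Conf d L → ℂ) (v : Site L)
  (B : BConf d r → BConf d r → ℂ), Contr B → ‖expec Ψ v B‖ ≤ nrm Ψ

/-- J9. Purification of the marginal of `Ψ` on the `n × 2n` rectangle by a vector on the
`2n × 2n` block whose left and right halves both have this marginal. -/
def StmPurify : Prop := ∀ (d L n : ℕ) [NeZero L], 0 < n → 2 * n ≤ L →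
  ∀ (Ψ : Conf d L → ℂ), nrm Ψ = 1 → ∃ Φ : BConf d (2 * n) → ℂ, nrm Φ = 1 ∧
  ∀ (r : ℕ) (p : ℕ × ℕ) (h : p.1 + r ≤ 2 * n ∧ p.2 + r ≤ 2 * n), 0 < r →
    (p.1 + r ≤ n ∨ n ≤ p.1) → ∀ (B : BConf d r → BConf d r → ℂ),
    expecBlock Φ p h B =
      expec Ψ ((((if p.1 + r ≤ n then p.1 else p.1 - n) : ℕ) : ZMod L), ((p.2 : ℕ) : ZMod L)) B

/-- J10. A finite net of block vectors. -/
def StmNet : Prop := ∀ (d m : ℕ) (δ : ℝ), 0 < δ → ∃ (K : ℕ) (F : Fin K → BConf d m → ℂ),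
  (∀ k, nrm (F k) = 1) ∧ ∀ Φ : BConf d m → ℂ, nrm Φ = 1 → ∃ k,
    ∀ (r : ℕ) (p : ℕ × ℕ) (h : p.1 + r ≤ m ∧ p.2 + r ≤ m) (B : BConf d r → BConf d r → ℂ),
      Contr B → ‖expecBlock (F k) p h B - expecBlock Φ p h B‖ ≤ δ

/-- The restriction of `s` to the translate by `v` of the region `R ⊂ ℤ²`. -/
def res {d L : ℕ} (R : Finset (ℤ × ℤ)) (s : Conf d L) (v : Site L) : R → Fin d :=
  fun p => s (v.1 + ((p : ℤ × ℤ).1 : ZMod L), v.2 + ((p : ℤ × ℤ).2 : ZMod L))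

/-- `⟨Ψ, B_v Ψ⟩` where the matrix `B` acts on the translate by `v` of the region `R`: the sum of
`conj (Ψ s) * B (s on v + R) (s' on v + R) * Ψ s'` over the pairs `s`, `s'` which agree off
`v + R`. -/
def expecR {d L : ℕ} [NeZero L] (R : Finset (ℤ × ℤ)) (Ψ : Conf d L → ℂ) (v : Site L)
    (B : (R → Fin d) → (R → Fin d) → ℂ) : ℂ :=
  ∑ s : Conf d L, ∑ s' : Conf d L,
    if (∀ w : Site L, (∀ p ∈ R, w ≠ (v.1 + (p.1 : ZMod L), v.2 + (p.2 : ZMod L))) → s w = s' w)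
    then conj (Ψ s) * B (res R s v) (res R s' v) * Ψ s' else 0

/-- J11. Regions are reduced to boxes. -/
def StmRegion : Prop := ∀ (d : ℕ) (R : Finset (ℤ × ℤ)), ∃ (r : ℕ) (a : ℤ × ℤ), 0 < r ∧
  ∀ (B : (R → Fin d) → (R → Fin d) → ℂ), Contr B →
  ∃ B' : BConf d r → BConf d r → ℂ, Contr B' ∧ ∀ (L : ℕ) [NeZero L], r ≤ L →
    ∀ (Ψ : Conf d L → ℂ) (v : Site L),
      expecR R Ψ v B = expec Ψ (v.1 + (a.1 : ZMod L), v.2 + (a.2 : ZMod L)) B'

/-- The Hamiltonian `H_L = ∑_v τ_v(h)` of an interaction `h` on `k × k` boxes. -/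
def ham {d k : ℕ} (h : BConf d k → BConf d k → ℂ) (L : ℕ) [NeZero L] (Ψ : Conf d L → ℂ) :
    Conf d L → ℂ :=
  fun s => ∑ v : Site L, ∑ τ : BConf d k, h (box k s v) τ * Ψ (put s v τ)

/-- `Ψ` is a normalised ground state of `H_L`, unique up to a phase, and the spectral gap above
it is at least `Δ`. -/
def IsGapped {d k : ℕ} (h : BConf d k → BConf d k → ℂ) (L : ℕ) [NeZero L] (Δ : ℝ)
    (Ψ : Conf d L → ℂ) : Prop :=
  nrm Ψ = 1 ∧ ∃ E : ℝ, (∀ s, ham h L Ψ s = E * Ψ s) ∧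
    ∀ φ : Conf d L → ℂ, (∑ s, conj (Ψ s) * φ s = 0) →
      (E + Δ) * nrm φ ≤ (∑ s, conj (φ s) * ham h L φ s).re

/-- J8. Unique ground states have translation invariant expectations. -/
def StmGroundTI : Prop := ∀ (d k L : ℕ) [NeZero L] (h : BConf d k → BConf d k → ℂ) (Δ : ℝ),
  0 < Δ → ∀ (Ψ : Conf d L → ℂ), IsGapped h L Δ Ψ → ∀ (r : ℕ) (v : Site L)
    (B : BConf d r → BConf d r → ℂ), expec Ψ v B = expec Ψ 0 B

/-- J12. The PEPS vector of any tensor has translation invariant expectations. -/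
def StmPepsTI : Prop := ∀ (d L : ℕ) [NeZero L] (X : Type) [Fintype X]
  (A : Fin d → X → X → X → X → ℂ) (r : ℕ) (v : Site L) (B : BConf d r → BConf d r → ℂ),
  expec (pepsX A L) v B = expec (pepsX A L) 0 B

end Pool.Agent.Y738.PE
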