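import Pool.Agent.Y738.PE.Ground

/-! # Third part: almost every interaction. Definitions and statements (jobs) -/

open scoped BigOperators ComplexConjugate Classical Topology

noncomputable section

namespace Pool.Agent.Y738.PE

/-- The Hermitian matrix `(X + Xᵀ) + i (X - Xᵀ)` of the real matrix `X` (a linear bijection
between real square matrices and Hermitian matrices). -/
def hermOf {d q : ℕ} (X : BConf d q → BConf d q → ℝ) : BConf d q → BConf d q → ℂ :=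
  fun σ τ => ((X σ τ + X τ σ : ℝ) : ℂ) + ((X σ τ - X τ σ : ℝ) : ℂ) * Complex.I

/-- The energy of `φ` on the `L × L` torus. -/
def en {d q : ℕ} (h : BConf d q → BConf d q → ℂ) (L : ℕ) [NeZero L] (φ : Conf d L → ℂ) : ℝ :=
  (∑ s, conj (φ s) * ham h L φ s).re

/-- `Ψ` is a normalised ground state: it minimises the energy. -/
def IsGround {d q : ℕ} (h : BConf d q → BConf d q → ℂ) (L : ℕ) [NeZero L] (Ψ : Conf d L → ℂ) :
    Prop :=
  nrm Ψ = 1 ∧ ∀ φ : Conf d L → ℂ, nrm φ = 1 → en h L Ψ ≤ en h L φ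

/-- The sum of the absolute values of the entries. -/
def entrySum {d q : ℕ} (h : BConf d q → BConf d q → ℂ) : ℝ := ∑ σ, ∑ τ, ‖h σ τ‖

/-- E4. There is a ground state which is translation invariant up to scalars. -/
def StmGroundExists : Prop := ∀ (d q L : ℕ) [NeZero L], 0 < d → q ≤ L →
  ∀ (X : BConf d q → BConf d q → ℝ), ∃ Ψ : Conf d L → ℂ,
    IsGround (hermOf X) L Ψ ∧ TransInv Ψ

/-- E5. Unique gapped ground states are ground states. -/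
def StmGappedGround : Prop := ∀ (d q L : ℕ) [NeZero L], q ≤ L →
  ∀ (X : BConf d q → BConf d q → ℝ) (Δ : ℝ), 0 < Δ → ∀ Ψ : Conf d L → ℂ,
    IsGapped (hermOf X) L Δ Ψ → IsGround (hermOf X) L Ψ

/-- E6. Regions inside the `q × q` box. -/
def StmRegionIn : Prop := ∀ (d q : ℕ) (R : Finset (ℤ × ℤ)),
  (∀ p ∈ R, (0 ≤ p.1 ∧ p.1 < (q : ℤ)) ∧ (0 ≤ p.2 ∧ p.2 < (q : ℤ))) →
  ∀ (B : (R → Fin d) → (R → Fin d) → ℂ), Contr B →
  ∃ B' : BConf d q → BConf d q → ℂ, Contr B' ∧ ∀ (L : ℕ) [NeZero L], q ≤ L →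
    ∀ (Ψ : Conf d L → ℂ) (v : Site L), expecR R Ψ v B = expec Ψ v B'

/-- E7a. The energy of a vector with translation invariant expectations, crude bounds. -/
def StmEnergyA : Prop :=
  (∀ (d q L : ℕ) [NeZero L] (h : BConf d q → BConf d q → ℂ) (Ψ : Conf d L → ℂ),
    (∀ v : Site L, expec Ψ v h = expec Ψ 0 h) →
    en h L Ψ = (L : ℝ) ^ 2 * (expec Ψ 0 h).re) ∧
  (∀ (d q L : ℕ) [NeZero L], q ≤ L → ∀ (h : BConf d q → BConf d q → ℂ) (Ψ : Conf d L → ℂ)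
    (v : Site L), ‖expec Ψ v h‖ ≤ entrySum h * nrm Ψ) ∧
  (∀ (d q L : ℕ) [NeZero L], q ≤ L → ∀ (h : BConf d q → BConf d q → ℂ) (Ψ : Conf d L → ℂ),
    |en h L Ψ| ≤ (L : ℝ) ^ 2 * (entrySum h * nrm Ψ))

/-- E7b. Linearity and reality. -/
def StmEnergyB : Prop :=
  (∀ (d q L : ℕ) [NeZero L] (X Y : BConf d q → BConf d q → ℝ) (t : ℝ) (Ψ : Conf d L → ℂ)
    (v : Site L), expec Ψ v (hermOf (X + t • Y)) =
      expec Ψ v (hermOf X) + (t : ℂ) * expec Ψ v (hermOf Y)) ∧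
  (∀ (d q L : ℕ) [NeZero L] (X Y : BConf d q → BConf d q → ℝ) (t : ℝ) (Ψ : Conf d L → ℂ),
    en (hermOf (X + t • Y)) L Ψ = en (hermOf X) L Ψ + t * en (hermOf Y) L Ψ) ∧
  (∀ (d q L : ℕ) [NeZero L], q ≤ L → ∀ (X : BConf d q → BConf d q → ℝ) (Ψ : Conf d L → ℂ)
    (v : Site L), (expec Ψ v (hermOf X)).im = 0)

/-- E7c. Norms of the parametrization. -/
def StmEnergyC : Prop :=
  (∀ (d q : ℕ) (X : BConf d q → BConf d q → ℝ),
    entrySum (hermOf X) ≤ 4 * (Fintype.card (BConf d q) : ℝ) ^ 2 * ‖X‖) ∧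
  (∀ (d q : ℕ) (B : BConf d q → BConf d q → ℂ), Contr B →
    ∃ Y Z : BConf d q → BConf d q → ℝ, ‖Y‖ ≤ 1 ∧ ‖Z‖ ≤ 1 ∧
      ∀ σ τ, B σ τ = hermOf Y σ τ + Complex.I * hermOf Z σ τ)

/-- E2. Convergence of supergradients at a point of differentiability of the limit. -/
def StmGrad : Prop := ∀ (E : Type) [NormedAddCommGroup E] [NormedSpace ℝ E]
  [FiniteDimensional ℝ E] (g : ℕ → E → ℝ) (F : E → ℝ) (X : E) (F' : E →L[ℝ] ℝ),
  HasFDerivAt F F' X → (∀ Z, Filter.Tendsto (fun L => g L Z) Filter.atTop (𝓝 (F Z))) →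
  ∀ δ : ℝ, 0 < δ → ∃ L₁ : ℕ, ∀ L, L₁ ≤ L → ∀ ρ : E →ₗ[ℝ] ℝ,
    (∀ Z, g L Z ≤ g L X + ρ (Z - X)) → ∀ Y, |ρ Y - F' Y| ≤ δ * ‖Y‖

/-- E3. Almost everywhere differentiability. -/
def StmRad : Prop := ∀ (d q : ℕ) (F : (BConf d q → BConf d q → ℝ) → ℝ) (C : NNReal),
  LipschitzWith C F → ∀ᵐ X : BConf d q → BConf d q → ℝ, ∃ F' : (BConf d q → BConf d q → ℝ) →L[ℝ] ℝ,
    HasFDerivAt F F' X

end Pool.Agent.Y738.PE
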