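import Pool.Agent.Y738.PE.Ground
import Pool.Agent.Y978.PE.Collapse
import Pool.Agent.Y562.PE.Orth
import Pool.Agent.Y297.PE.Factor
import Pool.Agent.Y65.PE.Weights
import Pool.Agent.Y65.PE.Bound
import Pool.Agent.Y65.PE.Purify
import Pool.Agent.Y328.PE.Shift
import Pool.Agent.Y794.PE.Ex
import Pool.Agent.Y585.PE.Net
import Pool.Agent.Y70.PE.Region

/-! # The universal family of tensors, unconditionally -/

open scoped BigOperators ComplexConjugate Classical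

noncomputable section

namespace Pool.Agent.Y738.PE

theorem universal_all (d : ℕ) (hd : 2 ≤ d) (R : Finset (ℤ × ℤ)) :
    ∃ r : ℕ, 0 < r ∧ ∀ ε : ℝ, 0 < ε → ε ≤ 1 →
      ∃ (L₀ K : ℕ) (A : Fin K → Tensor d (bond d r ε)),
      ∀ (L : ℕ) [NeZero L], L₀ ≤ L → ∀ Ψ : Conf d L → ℂ, nrm Ψ = 1 →
      (∀ (r : ℕ) (v : Site L) (B : BConf d r → BConf d r → ℂ), expec Ψ v B = expec Ψ 0 B) →
      ∃ k, ∀ (L' : ℕ) [NeZero L'], L₀ ≤ L' → 0 < nrm (pepsX (A k) L') ∧
        ∀ (u : Site L) (v : Site L') (B : (R → Fin d) → (R → Fin d) → ℂ), Contr B →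
          ‖expecR R (pepsX (A k) L') v B / (nrm (pepsX (A k) L') : ℂ) - expecR R Ψ u B‖ ≤ ε :=
  universal_region Pool.Agent.Y70.PE.region
    (fun {_} hd {_} hr {_} hε hε1 => universal_box Pool.Agent.Y978.PE.collapse Pool.Agent.Y562.PE.orth
      Pool.Agent.Y297.PE.factor Pool.Agent.Y65.PE.weights Pool.Agent.Y328.PE.shiftMain
      Pool.Agent.Y794.PE.exist Pool.Agent.Y794.PE.nonzero Pool.Agent.Y65.PE.bound
      Pool.Agent.Y65.PE.purify Pool.Agent.Y585.PE.net Pool.Agent.Y328.PE.pepsMain hd hr hε hε1)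
    d hd R

end Pool.Agent.Y738.PE
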